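import Mathlib

/-!
# Part C of Theorem G (MP_8923e7_nt): counting complete boxes

`box_count`: a relation `R` on `X^r` of density `c` has at least `c^(s^r) |X|^(r s)` boxes
`V : Fin r → Fin s → X` all of whose transversals satisfy `R`.
-/

set_option autoImplicit false

open Finset

namespace Pool.Agent.H21.GC

/-- the mean value -/
noncomputable def av {Ω : Type} [Fintype Ω] (f : Ω → ℝ) : ℝ := (∑ x, f x) / (Fintype.card Ω : ℝ)

theorem av_nonneg {Ω : Type} [Fintype Ω] {f : Ω → ℝ} (hf : ∀ x, 0 ≤ f x) : 0 ≤ av f :=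
  div_nonneg (sum_nonneg fun x _ => hf x) (Nat.cast_nonneg _)

theorem av_mono {Ω : Type} [Fintype Ω] {f g : Ω → ℝ} (h : ∀ x, f x ≤ g x) : av f ≤ av g :=
  div_le_div_of_nonneg_right (sum_le_sum fun x _ => h x) (Nat.cast_nonneg _)

theorem av_pow {Ω : Type} [Fintype Ω] [Nonempty Ω] {f : Ω → ℝ} (hf : ∀ x, 0 ≤ f x) (n : ℕ) :
    av f ^ n ≤ av fun x => f x ^ n := by
  have hc : (0 : ℝ) < (Fintype.card Ω : ℝ) := by exact_mod_cast Fintype.card_pos
  have h := Real.pow_arith_mean_le_arith_mean_pow univ (fun _ : Ω => (1 : ℝ) / (Fintype.card Ω : ℝ))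
    f (fun _ _ => by positivity) (by
      rw [sum_const, card_univ, nsmul_eq_mul, mul_one_div, div_self hc.ne']) (fun x _ => hf x) n
  rw [← mul_sum, ← mul_sum] at h
  unfold av
  rw [div_eq_mul_one_div, div_eq_mul_one_div (∑ x, f x ^ n), mul_comm, mul_comm (∑ x, f x ^ n)]
  exact h

theorem av_equiv {Ω Ω' : Type} [Fintype Ω] [Fintype Ω'] (e : Ω ≃ Ω') (f : Ω' → ℝ) :
    av (fun x => f (e x)) = av f := by
  unfold av
  rw [e.sum_comp f, Fintype.card_congr e]

theorem av_prod {Ω Ω' : Type} [Fintype Ω] [Fintype Ω'] (f : Ω × Ω' → ℝ) :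
    av f = av fun x => av fun y => f (x, y) := by
  unfold av
  rw [Fintype.sum_prod_type, Fintype.card_prod, Nat.cast_mul, ← sum_div, div_div, mul_comm]

theorem av_prod' {Ω Ω' : Type} [Fintype Ω] [Fintype Ω'] (f : Ω × Ω' → ℝ) :
    av f = av fun y => av fun x => f (x, y) := by
  rw [← av_equiv (Equiv.prodComm Ω' Ω) f, av_prod]
  rfl

theorem av_tensor {Ω : Type} [Fintype Ω] (g : Ω → ℝ) (s : ℕ) :
    av (fun x : Fin s → Ω => ∏ j, g (x j)) = av g ^ s := by
  unfold av
  rw [div_pow, Fintype.sum_pow, Fintype.card_fun, Fintype.card_fin, Nat.cast_pow]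

theorem av_box {X : Type} [Fintype X] [Nonempty X] (s : ℕ) : ∀ (r : ℕ) (f : (Fin r → X) → ℝ),
    (∀ x, 0 ≤ f x) → av f ^ (s ^ r) ≤
      av fun V : Fin r → Fin s → X => ∏ φ : Fin r → Fin s, f fun i => V i (φ i) := by
  intro r
  induction r with
  | zero =>
    intro f hf
    rw [pow_zero, pow_one]
    refine le_of_eq ?_
    unfold av
    simp only [univ_unique, sum_singleton, prod_singleton, Fintype.card_unique]
    congr 2
    exact Subsingleton.elim _ _
  | succ r ih =>
    intro f hf
    -- split off the first coordinate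
    obtain ⟨F, hF⟩ : ∃ F : X → (Fin r → Fin s → X) → ℝ, F = fun x V =>
      ∏ φ : Fin r → Fin s, f (Fin.cons x fun i => V i (φ i)) := ⟨_, rfl⟩
    have hF0 : ∀ x V, 0 ≤ F x V := by
      intro x V
      rw [hF]
      exact prod_nonneg fun φ _ => hf _
    have h1 : (av fun V : Fin (r + 1) → Fin s → X => ∏ φ : Fin (r + 1) → Fin s,
        f fun i => V i (φ i)) = av fun V : Fin r → Fin s → X => (av fun x => F x V) ^ s := by
      rw [← av_equiv (Fin.consEquiv fun _ : Fin (r + 1) => Fin s → X), av_prod']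
      refine congrArg av (funext fun V => ?_)
      rw [← av_tensor]
      refine congrArg av (funext fun x => ?_)
      rw [← (Fin.consEquiv fun _ : Fin (r + 1) => Fin s).prod_comp, Fintype.prod_prod_type]
      refine prod_congr rfl fun j _ => ?_
      rw [hF]
      refine prod_congr rfl fun φ _ => ?_
      congr 1
      funext i
      refine Fin.cases ?_ (fun i => ?_) i
      · rfl
      · rfl
    rw [h1]
    have h2 : av (fun V => av fun x => F x V) ^ s ≤
        av fun V : Fin r → Fin s → X => (av fun x => F x V) ^ s :=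
      av_pow (fun V => av_nonneg fun x => hF0 x V) s
    refine le_trans ?_ h2
    rw [pow_succ, pow_mul]
    refine pow_le_pow_left₀ (pow_nonneg (av_nonneg hf) _) ?_ s
    have h3 : av (fun V : Fin r → Fin s → X => av fun x => F x V) =
        av fun x => av fun V => F x V := by
      have e1 := av_prod' (fun q : X × (Fin r → Fin s → X) => F q.1 q.2)
      have e2 := av_prod (fun q : X × (Fin r → Fin s → X) => F q.1 q.2)
      exact e1.symm.trans e2
    rw [h3]
    have h4 : ∀ x, av (fun y : Fin r → X => f (Fin.cons x y)) ^ (s ^ r) ≤ av fun V => F x V := by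
      intro x
      rw [hF]
      exact ih (fun y => f (Fin.cons x y)) fun y => hf _
    have h5 : av f = av fun x => av fun y : Fin r → X => f (Fin.cons x y) := by
      rw [← av_equiv (Fin.consEquiv fun _ : Fin (r + 1) => X), av_prod]
      rfl
    rw [h5]
    exact (av_pow (fun x => av_nonneg fun y => hf _) (s ^ r)).trans (av_mono h4)

/-- The number of boxes all of whose transversals satisfy `R`. -/
theorem box_count {X : Type} [Fintype X] [Nonempty X] (r s : ℕ) (R : (Fin r → X) → Prop)
    [DecidablePred R] (c : ℝ) (hc : 0 ≤ c)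
    (h : c * (Fintype.card X : ℝ) ^ r ≤ ((univ.filter R).card : ℝ)) :
    c ^ (s ^ r) * (Fintype.card X : ℝ) ^ (r * s) ≤
      ((univ.filter fun V : Fin r → Fin s → X =>
        ∀ φ : Fin r → Fin s, R fun i => V i (φ i)).card : ℝ) := by
  have hX : (0 : ℝ) < (Fintype.card X : ℝ) := by exact_mod_cast Fintype.card_pos
  have h1 := av_box s r (fun x : Fin r → X => if R x then (1 : ℝ) else 0) fun x => by
    split
    · exact zero_le_one
    · exact le_rfl
  have h2 : c ≤ av fun x : Fin r → X => if R x then (1 : ℝ) else 0 := by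
    unfold av
    rw [sum_boole, Fintype.card_fun, Fintype.card_fin, Nat.cast_pow, le_div_iff₀ (by positivity)]
    exact h
  have h3 : (av fun V : Fin r → Fin s → X => ∏ φ : Fin r → Fin s,
      if R (fun i => V i (φ i)) then (1 : ℝ) else 0) =
      ((univ.filter fun V : Fin r → Fin s → X =>
        ∀ φ : Fin r → Fin s, R fun i => V i (φ i)).card : ℝ) /
        (Fintype.card X : ℝ) ^ (r * s) := by
    unfold av
    rw [Fintype.card_fun, Fintype.card_fun, Fintype.card_fin, Fintype.card_fin, ← pow_mul,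
      Nat.cast_pow, mul_comm s r]
    congr 1
    rw [← sum_boole]
    refine sum_congr rfl fun V _ => ?_
    beta_reduce
    rw [prod_boole]
    simp only [mem_univ, true_implies]
  rw [h3, le_div_iff₀ (by positivity)] at h1
  refine le_trans ?_ h1
  exact mul_le_mul_of_nonneg_right (pow_le_pow_left₀ hc h2 _) (by positivity)

end Pool.Agent.H21.GC
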