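import Mathlib

/-!
# Part C of Theorem G (MP_8923e7_nt): few boxes are not injective
-/

set_option autoImplicit false

open Finset

open scoped Classical

namespace Pool.Agent.H21.GC

/-- comparison of cardinalities of filters, for any decidability instances -/
theorem card_imp {α : Type} [Fintype α] {P Q : α → Prop} {dP : DecidablePred P}
    {dQ : DecidablePred Q} (h : ∀ a, P a → Q a) :
    ((@Finset.filter α P dP univ).card : ℝ) ≤ ((@Finset.filter α Q dQ univ).card : ℝ) := by
  refine Nat.cast_le.2 (card_le_card fun a ha => ?_)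
  rw [mem_filter] at ha ⊢
  exact ⟨ha.1, h a ha.2⟩

theorem noninj (ι : Type) [Fintype ι] [DecidableEq ι] (N : ℕ) :
    N * (univ.filter fun z : ι → Fin N => ¬ Function.Injective z).card ≤
      (Fintype.card ι) ^ 2 * N ^ (Fintype.card ι) := by
  have h1 : (univ.filter fun z : ι → Fin N => ¬ Function.Injective z) ⊆
      (univ.filter fun q : ι × ι => q.1 ≠ q.2).biUnion
        (fun q => univ.filter fun z : ι → Fin N => z q.1 = z q.2) := by
    intro z hz
    rw [mem_filter] at hz
    have h2 := hz.2
    simp only [Function.Injective, not_forall] at h2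
    obtain ⟨a, b, hab, hne⟩ := h2
    rw [mem_biUnion]
    exact ⟨(a, b), by rw [mem_filter]; exact ⟨mem_univ _, hne⟩,
      by rw [mem_filter]; exact ⟨mem_univ _, hab⟩⟩
  have h2 := (card_le_card h1).trans card_biUnion_le
  have h3 : ∀ q ∈ (univ.filter fun q : ι × ι => q.1 ≠ q.2),
      N * (univ.filter fun z : ι → Fin N => z q.1 = z q.2).card ≤ N ^ Fintype.card ι := by
    intro q hq
    rw [mem_filter] at hq
    have h4 : ((univ : Finset (Fin N)) ×ˢ
        (univ.filter fun z : ι → Fin N => z q.1 = z q.2)).card ≤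
        (univ : Finset (ι → Fin N)).card := by
      refine card_le_card_of_injOn (fun x => Function.update x.2 q.1 x.1)
        (fun _ _ => mem_coe.2 (mem_univ _)) ?_
      rintro ⟨x, z⟩ hx ⟨x', z'⟩ hx' h
      simp only [coe_product, coe_univ, coe_filter, Set.mem_prod, Set.mem_univ, true_and,
        mem_univ, Set.mem_ofPred_eq] at hx hx'
      have h5 : ∀ i, Function.update z q.1 x i = Function.update z' q.1 x' i := fun i => congrFun h i
      have h6 : x = x' := by
        have := h5 q.1
        rwa [Function.update_self, Function.update_self] at this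
      have h7 : ∀ i, i ≠ q.1 → z i = z' i := by
        intro i hi
        have := h5 i
        rwa [Function.update_of_ne hi, Function.update_of_ne hi] at this
      have h8 : z = z' := by
        funext i
        by_cases hi : i = q.1
        · rw [hi, hx, hx']
          exact h7 q.2 (Ne.symm hq.2)
        · exact h7 i hi
      rw [h6, h8]
    rw [card_product, card_univ, card_univ, Fintype.card_fin, Fintype.card_fun,
      Fintype.card_fin] at h4
    exact h4
  calc N * (univ.filter fun z : ι → Fin N => ¬ Function.Injective z).card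
      ≤ N * ∑ q ∈ univ.filter (fun q : ι × ι => q.1 ≠ q.2),
        (univ.filter fun z : ι → Fin N => z q.1 = z q.2).card := Nat.mul_le_mul_left _ h2
    _ = ∑ q ∈ univ.filter (fun q : ι × ι => q.1 ≠ q.2),
        N * (univ.filter fun z : ι → Fin N => z q.1 = z q.2).card := mul_sum _ _ _
    _ ≤ ∑ _q ∈ univ.filter (fun q : ι × ι => q.1 ≠ q.2), N ^ Fintype.card ι := sum_le_sum h3
    _ = (univ.filter (fun q : ι × ι => q.1 ≠ q.2)).card * N ^ Fintype.card ι := by
        rw [sum_const, smul_eq_mul]
    _ ≤ (Fintype.card ι) ^ 2 * N ^ (Fintype.card ι) := by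
        refine Nat.mul_le_mul_right _ ((card_filter_le _ _).trans (le_of_eq ?_))
        rw [card_univ, Fintype.card_prod, sq]

theorem noninj_box (r s N : ℕ) :
    N * (univ.filter fun V : Fin r → Fin s → Fin N =>
      ¬ ∀ i j i' j', V i j = V i' j' → i = i' ∧ j = j').card ≤ (r * s) ^ 2 * N ^ (r * s) := by
  have h1 := noninj (Fin r × Fin s) N
  rw [Fintype.card_prod, Fintype.card_fin, Fintype.card_fin] at h1
  refine le_trans (Nat.mul_le_mul_left _ ?_) h1
  refine card_le_card_of_injOn (fun V q => V q.1 q.2) ?_ ?_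
  · intro V hV
    rw [mem_coe, mem_filter] at hV
    rw [mem_coe, mem_filter]
    refine ⟨mem_univ _, fun h => hV.2 ?_⟩
    intro i j i' j' hij
    have h2 : (i, j) = (i', j') := h hij
    exact Prod.mk.inj h2
  · intro V _ V' _ h
    funext i j
    exact congrFun h (i, j)

/-- From boxes to injective boxes. -/
theorem inj_part (r s N : ℕ) (P : (Fin r → Fin s → Fin N) → Prop) (κ : ℝ) (hN0 : 0 < N)
    (hN : 2 * ((r : ℝ) * s) ^ 2 ≤ κ * N)
    (h : κ * (N : ℝ) ^ (r * s) ≤ ((univ.filter P).card : ℝ)) :
    κ / 2 * (N : ℝ) ^ (r * s) ≤ ((univ.filter fun V : Fin r → Fin s → Fin N =>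
      (∀ i j i' j', V i j = V i' j' → i = i' ∧ j = j') ∧ P V).card : ℝ) := by
  have hNr : (0 : ℝ) < N := by exact_mod_cast hN0
  have h1 : (univ.filter P).card ≤ (univ.filter fun V : Fin r → Fin s → Fin N =>
      (∀ i j i' j', V i j = V i' j' → i = i' ∧ j = j') ∧ P V).card +
      (univ.filter fun V : Fin r → Fin s → Fin N =>
        ¬ ∀ i j i' j', V i j = V i' j' → i = i' ∧ j = j').card := by
    refine le_trans (card_le_card ?_) (card_union_le _ _)
    intro V hV
    rw [mem_filter] at hV
    rw [mem_union, mem_filter, mem_filter]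
    by_cases hi : ∀ i j i' j', V i j = V i' j' → i = i' ∧ j = j'
    · exact Or.inl ⟨mem_univ _, hi, hV.2⟩
    · exact Or.inr ⟨mem_univ _, hi⟩
  have h2 := noninj_box r s N
  have h3 : (N : ℝ) * ((univ.filter fun V : Fin r → Fin s → Fin N =>
        ¬ ∀ i j i' j', V i j = V i' j' → i = i' ∧ j = j').card : ℝ) ≤
      ((r : ℝ) * s) ^ 2 * (N : ℝ) ^ (r * s) := by exact_mod_cast h2
  have h4 : ((univ.filter P).card : ℝ) ≤ ((univ.filter fun V : Fin r → Fin s → Fin N =>
      (∀ i j i' j', V i j = V i' j' → i = i' ∧ j = j') ∧ P V).card : ℝ) +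
      ((univ.filter fun V : Fin r → Fin s → Fin N =>
        ¬ ∀ i j i' j', V i j = V i' j' → i = i' ∧ j = j').card : ℝ) := by exact_mod_cast h1
  have h5 : ((r : ℝ) * s) ^ 2 * (N : ℝ) ^ (r * s) ≤ κ * N / 2 * (N : ℝ) ^ (r * s) :=
    mul_le_mul_of_nonneg_right (by linarith) (by positivity)
  have h6 : (N : ℝ) * ((univ.filter fun V : Fin r → Fin s → Fin N =>
        ¬ ∀ i j i' j', V i j = V i' j' → i = i' ∧ j = j').card : ℝ) ≤
      (N : ℝ) * (κ / 2 * (N : ℝ) ^ (r * s)) := by
    refine h3.trans (h5.trans (le_of_eq ?_))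
    ring
  have h7 := le_of_mul_le_mul_left h6 hNr
  linarith

end Pool.Agent.H21.GC
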