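import Pool.Agent.H21.GC.BoxCount
import Pool.Agent.H21.GC.NonInj

/-!
# Part C of Theorem G (MP_8923e7_nt): the second moment

`cheb`: if `R` has density `≤ m` in `X^k`, the number of `j` in a set `J` of injective maps `Fin k → Fin B` with
`R (z ∘ j)` is `< (m + ε/2) B^k` for all but `16 k²/(ε² B) |X|^B` of the `z : Fin B → X`.
-/

set_option autoImplicit false

open Finset

open scoped Classical

namespace Pool.Agent.H21.GC

theorem av_sum {Ω κ : Type} [Fintype Ω] (J : Finset κ) (F : κ → Ω → ℝ) :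
    av (fun x => ∑ j ∈ J, F j x) = ∑ j ∈ J, av (F j) := by
  unfold av
  rw [sum_comm, sum_div]

theorem av_mul_left {Ω : Type} [Fintype Ω] (c : ℝ) (f : Ω → ℝ) :
    av (fun x => c * f x) = c * av f := by
  unfold av
  rw [← mul_sum, mul_div_assoc]

theorem av_const {Ω : Type} [Fintype Ω] [Nonempty Ω] (c : ℝ) : av (fun _ : Ω => c) = c := by
  have hc : (Fintype.card Ω : ℝ) ≠ 0 := by
    exact_mod_cast Fintype.card_ne_zero
  unfold av
  rw [sum_const, card_univ, nsmul_eq_mul, mul_div_cancel_left₀ _ hc]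

/-- independence -/
theorem av_indep {X : Type} [Fintype X] [Nonempty X] {k B : ℕ} (j : Fin k → Fin B)
    (hj : Function.Injective j) (f : (Fin k → X) → ℝ) (g : (Fin B → X) → ℝ)
    (hg : ∀ z z' : Fin B → X, (∀ b, (¬ ∃ i, j i = b) → z b = z' b) → g z = g z') :
    av (fun z => f (fun i => z (j i)) * g z) = av f * av g := by
  obtain ⟨σ, hσ⟩ : ∃ σ : ((Fin k → X) × (Fin B → X)) ≃ ((Fin k → X) × (Fin B → X)),
      ∀ y z, σ (y, z) = (fun i => z (j i), Function.extend j y z) := by
    have hinv : Function.Involutive (fun p : (Fin k → X) × (Fin B → X) =>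
        ((fun i => p.2 (j i)), Function.extend j p.1 p.2)) := by
      rintro ⟨y, z⟩
      simp only [Prod.mk.injEq]
      constructor
      · funext i
        exact hj.extend_apply y z i
      · funext b
        by_cases hb : ∃ i, j i = b
        · obtain ⟨i, rfl⟩ := hb
          rw [hj.extend_apply]
        · rw [Function.extend_apply' _ _ _ hb, Function.extend_apply' _ _ _ hb]
    exact ⟨hinv.toPerm, fun y z => rfl⟩
  have h1 : av (fun p : (Fin k → X) × (Fin B → X) => f p.1 * g p.2) = av f * av g := by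
    rw [av_prod]
    have h2 : (fun y : Fin k → X => av fun z : Fin B → X => f (y, z).1 * g (y, z).2) =
        fun y => av g * f y := by
      funext y
      have h3 : (fun z : Fin B → X => f (y, z).1 * g (y, z).2) = fun z => f y * g z := rfl
      rw [h3, av_mul_left, mul_comm]
    rw [h2, av_mul_left, mul_comm]
  rw [← h1, ← av_equiv σ, av_prod']
  congr 1
  funext z
  have h2 : (fun y : Fin k → X => f (σ (y, z)).1 * g (σ (y, z)).2) =
      fun _ => f (fun i => z (j i)) * g z := by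
    funext y
    rw [hσ]
    have h3 : g (Function.extend j y z) = g z :=
      hg _ _ fun b hb => Function.extend_apply' _ _ _ hb
    change f (fun i => z (j i)) * g (Function.extend j y z) = _
    rw [h3]
  rw [h2, av_const]

theorem av_sq_le {X : Type} [Fintype X] [Nonempty X] {k B : ℕ} (hB : 0 < B)
    (J : Finset (Fin k → Fin B)) (hJ : ∀ j ∈ J, Function.Injective j) (f : (Fin k → X) → ℝ)
    (hf : ∀ y, |f y| ≤ 1) (hf0 : av f = 0) :
    av (fun z : Fin B → X => (∑ j ∈ J, f (fun i => z (j i))) ^ 2) ≤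
      4 * (k : ℝ) ^ 2 * (B : ℝ) ^ (2 * k) / B := by
  have hBr : (0 : ℝ) < B := by exact_mod_cast hB
  have h1 : (fun z : Fin B → X => (∑ j ∈ J, f (fun i => z (j i))) ^ 2) =
      fun z => ∑ q ∈ J ×ˢ J, f (fun i => z (q.1 i)) * f (fun i => z (q.2 i)) := by
    funext z
    rw [sq, sum_mul_sum, sum_product]
  rw [h1, av_sum]
  have h2 : ∀ q ∈ J ×ˢ J, av (fun z : Fin B → X => f (fun i => z (q.1 i)) *
      f (fun i => z (q.2 i))) ≤ if ¬ Function.Injective (Sum.elim q.1 q.2) then 1 else 0 := by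
    intro q hq
    rw [mem_product] at hq
    split_ifs with h
    · rw [av_indep q.1 (hJ _ hq.1) f (fun z => f (fun i => z (q.2 i))) ?_, hf0, zero_mul]
      intro z z' hz
      congr 1
      funext i
      refine hz _ ?_
      rintro ⟨i', hi'⟩
      have h4 : (Sum.inl i' : Fin k ⊕ Fin k) = Sum.inr i := h hi'
      exact absurd h4 (by simp)
    · have h3 : av (fun z : Fin B → X => f (fun i => z (q.1 i)) * f (fun i => z (q.2 i))) ≤
          av (fun _ : Fin B → X => (1 : ℝ)) := by
        refine av_mono fun z => (le_abs_self _).trans ?_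
        rw [abs_mul]
        exact mul_le_one₀ (hf _) (abs_nonneg _) (hf _)
      rw [av_const] at h3
      exact h3
  refine (sum_le_sum h2).trans ?_
  rw [sum_boole, le_div_iff₀ hBr]
  have h3 : ((J ×ˢ J).filter fun q => ¬ Function.Injective (Sum.elim q.1 q.2)).card ≤
      (univ.filter fun z : Fin k ⊕ Fin k → Fin B => ¬ Function.Injective z).card := by
    refine card_le_card_of_injOn (fun q => Sum.elim q.1 q.2) ?_ ?_
    · intro q hq
      rw [mem_coe, mem_filter] at hq ⊢
      exact ⟨mem_univ _, hq.2⟩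
    · rintro ⟨a, b⟩ _ ⟨a', b'⟩ _ h
      have h4 : a = a' := by
        funext i
        exact congrFun h (Sum.inl i)
      have h5 : b = b' := by
        funext i
        exact congrFun h (Sum.inr i)
      rw [h4, h5]
  have h4 := noninj (Fin k ⊕ Fin k) B
  rw [Fintype.card_sum, Fintype.card_fin] at h4
  have h5 : B * ((J ×ˢ J).filter fun q => ¬ Function.Injective (Sum.elim q.1 q.2)).card ≤
      (k + k) ^ 2 * B ^ (k + k) := (Nat.mul_le_mul_left _ h3).trans h4
  have h6 : (B : ℝ) * (((J ×ˢ J).filter fun q =>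
      ¬ Function.Injective (Sum.elim q.1 q.2)).card : ℝ) ≤
      ((k : ℝ) + k) ^ 2 * (B : ℝ) ^ (k + k) := by exact_mod_cast h5
  rw [mul_comm]
  refine h6.trans (le_of_eq ?_)
  rw [← two_mul, ← two_mul]
  ring

theorem cheb {X : Type} [Fintype X] [Nonempty X] {k B : ℕ} (hB : 0 < B)
    (J : Finset (Fin k → Fin B)) (hJ : ∀ j ∈ J, Function.Injective j) (R : (Fin k → X) → Prop)
    (m ε : ℝ) (hε : 0 < ε)
    (hR : ((univ.filter R).card : ℝ) ≤ m * (Fintype.card X : ℝ) ^ k) :
    ((univ.filter fun z : Fin B → X => (m + ε / 2) * (B : ℝ) ^ k ≤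
      ((J.filter fun j => R (fun i => z (j i))).card : ℝ)).card : ℝ) ≤
      16 * (k : ℝ) ^ 2 / (ε ^ 2 * B) * (Fintype.card X : ℝ) ^ B := by
  have hBr : (0 : ℝ) < B := by exact_mod_cast hB
  have hX : (0 : ℝ) < (Fintype.card X : ℝ) := by exact_mod_cast Fintype.card_pos
  obtain ⟨μ, hμ⟩ : ∃ μ, μ = av (fun y : Fin k → X => if R y then (1 : ℝ) else 0) := ⟨_, rfl⟩
  have hμm : μ ≤ m := by
    rw [hμ]
    unfold av
    rw [sum_boole, Fintype.card_fun, Fintype.card_fin, Nat.cast_pow, div_le_iff₀ (by positivity)]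
    exact hR
  have hμ0 : 0 ≤ μ := by
    rw [hμ]
    refine av_nonneg fun y => ?_
    split_ifs
    · exact zero_le_one
    · exact le_rfl
  have hμ1 : μ ≤ 1 := by
    have h1 : μ ≤ av (fun _ : Fin k → X => (1 : ℝ)) := by
      rw [hμ]
      refine av_mono fun y => ?_
      split_ifs
      · exact le_rfl
      · exact zero_le_one
    rwa [av_const] at h1
  obtain ⟨f, hf⟩ : ∃ f : (Fin k → X) → ℝ, f = fun y => (if R y then (1 : ℝ) else 0) - μ := ⟨_, rfl⟩
  have hf1 : ∀ y, |f y| ≤ 1 := by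
    intro y
    rw [hf, abs_le]
    beta_reduce
    split_ifs
    · constructor <;> linarith
    · constructor <;> linarith
  have hf0 : av f = 0 := by
    have h1 : av f = av (fun y : Fin k → X => if R y then (1 : ℝ) else 0) -
        av (fun _ : Fin k → X => μ) := by
      rw [hf]
      unfold av
      rw [sum_sub_distrib, sub_div]
    rw [h1, ← hμ, av_const, sub_self]
  have h1 := av_sq_le hB J hJ f hf1 hf0
  have hcard : (Fintype.card (Fin B → X) : ℝ) = (Fintype.card X : ℝ) ^ B := by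
    rw [Fintype.card_fun, Fintype.card_fin, Nat.cast_pow]
  have h2 : ∑ z : Fin B → X, (∑ j ∈ J, f (fun i => z (j i))) ^ 2 ≤
      4 * (k : ℝ) ^ 2 * (B : ℝ) ^ (2 * k) / B * (Fintype.card X : ℝ) ^ B := by
    unfold av at h1
    rw [hcard, div_le_iff₀ (by positivity)] at h1
    exact h1
  obtain ⟨Z, hZ⟩ : ∃ Z, Z = (univ.filter fun z : Fin B → X => (m + ε / 2) * (B : ℝ) ^ k ≤
      ((J.filter fun j => R (fun i => z (j i))).card : ℝ)) := ⟨_, rfl⟩
  rw [← hZ]
  have h3 : ∀ z ∈ Z, (ε / 2 * (B : ℝ) ^ k) ^ 2 ≤ (∑ j ∈ J, f (fun i => z (j i))) ^ 2 := by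
    intro z hz
    rw [hZ, mem_filter] at hz
    have h4 : ∑ j ∈ J, f (fun i => z (j i)) =
        ((J.filter fun j => R (fun i => z (j i))).card : ℝ) - J.card * μ := by
      rw [hf]
      beta_reduce
      rw [sum_sub_distrib, sum_boole, sum_const, nsmul_eq_mul]
    have h5 : (J.card : ℝ) ≤ (B : ℝ) ^ k := by
      have h6 := card_le_univ J
      rw [Fintype.card_fun, Fintype.card_fin, Fintype.card_fin] at h6
      exact_mod_cast h6
    have h6 : (J.card : ℝ) * μ ≤ (B : ℝ) ^ k * m :=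
      mul_le_mul h5 hμm hμ0 (by positivity)
    refine pow_le_pow_left₀ (by positivity) ?_ 2
    rw [h4]
    have h7 := hz.2
    have h8 : (m + ε / 2) * (B : ℝ) ^ k = (B : ℝ) ^ k * m + ε / 2 * (B : ℝ) ^ k := by ring
    rw [h8] at h7
    linarith
  have h4 : (Z.card : ℝ) * (ε / 2 * (B : ℝ) ^ k) ^ 2 ≤
      ∑ z : Fin B → X, (∑ j ∈ J, f (fun i => z (j i))) ^ 2 := by
    rw [← nsmul_eq_mul, ← sum_const]
    exact (sum_le_sum h3).trans (sum_le_sum_of_subset_of_nonneg (subset_univ _)
      fun z _ _ => sq_nonneg _)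
  have h5 := h4.trans h2
  have h6 : (0 : ℝ) < (ε / 2 * (B : ℝ) ^ k) ^ 2 := by positivity
  rw [← le_div_iff₀ h6] at h5
  refine h5.trans (le_of_eq ?_)
  rw [show 2 * k = k * 2 by ring, pow_mul, mul_pow, div_pow]
  field_simp
  ring

end Pool.Agent.H21.GC
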