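import Pool.Agent.H21.GC.NonInj

/-!
# Part C of Theorem G (MP_8923e7_nt), clause (3): sets without popular patterns

If at most `κ T^k` of the `k`-tuples `n ∈ [1,T]^k` are in `G` and `κ (#ι)^(k+1) < 1`, a positive proportion of the
`V : ι → [0,T]` is injective and no increasing sequence of `k+1` of its values has its differences in `G`.
-/

set_option autoImplicit false

open Finset

open scoped Classical

namespace Pool.Agent.H21.GC

private theorem cons_one {ι : Type} [Fintype ι] [DecidableEq ι] (k T : ℕ) (G : Set (Fin k → ℕ))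
    (j : Fin (k + 1) → ι) :
    (T + 1) ^ k * (univ.filter (fun V : ι → Fin (T + 1) =>
      (∀ i : Fin k, (V (j i.castSucc) : ℕ) < V (j i.succ)) ∧
        (fun i : Fin k => (V (j i.succ) : ℕ) - V (j i.castSucc)) ∈ G)).card ≤
      ((Fintype.piFinset fun _ : Fin k => Icc 1 T).filter (fun n => n ∈ G)).card *
        (T + 1) ^ (Fintype.card ι) := by
  obtain ⟨A, hA⟩ : ∃ A, A = univ.filter (fun V : ι → Fin (T + 1) =>
      (∀ i : Fin k, (V (j i.castSucc) : ℕ) < V (j i.succ)) ∧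
        (fun i : Fin k => (V (j i.succ) : ℕ) - V (j i.castSucc)) ∈ G) := ⟨_, rfl⟩
  rw [← hA]
  have h1 : ((univ : Finset (Fin k → Fin (T + 1))) ×ˢ A).card ≤
      (((Fintype.piFinset fun _ : Fin k => Icc 1 T).filter (fun n => n ∈ G)) ×ˢ
        (univ : Finset (ι → Fin (T + 1)))).card := by
    refine card_le_card_of_injOn (fun p => ((fun i : Fin k =>
      (p.2 (j i.succ) : ℕ) - p.2 (j i.castSucc)), Function.extend (fun i : Fin k => j i.succ)
        p.1 p.2)) ?_ ?_
    · rintro ⟨w, V⟩ hp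
      rw [mem_coe, mem_product, hA, mem_filter] at hp
      obtain ⟨-, -, h2, h3⟩ := hp
      simp only at h2 h3
      rw [mem_coe, mem_product, mem_filter, Fintype.mem_piFinset]
      refine ⟨⟨fun i => ?_, h3⟩, mem_univ _⟩
      rw [mem_Icc]
      have h4 := h2 i
      have h5 := (V (j i.succ)).isLt
      change 1 ≤ (V (j i.succ) : ℕ) - V (j i.castSucc) ∧ (V (j i.succ) : ℕ) - V (j i.castSucc) ≤ T
      omega
    · rintro ⟨w, V⟩ hp ⟨w', V'⟩ hp' h
      rw [mem_coe, mem_product, hA, mem_filter] at hp hp'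
      obtain ⟨-, -, h2, -⟩ := hp
      obtain ⟨-, -, h2', -⟩ := hp'
      simp only [Prod.mk.injEq] at h2 h2' h
      obtain ⟨h3, h4⟩ := h
      have hmono : StrictMono (fun i : Fin (k + 1) => (V (j i) : ℕ)) :=
        Fin.strictMono_iff_lt_succ.2 h2
      have hinj : Function.Injective j := by
        intro a b hab
        apply hmono.injective
        simp only [hab]
      have hf : Function.Injective (fun i : Fin k => j i.succ) := by
        intro a b hab
        exact Fin.succ_injective _ (hinj hab)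
      have hw : w = w' := by
        funext i
        have h5 := congrFun h4 (j i.succ)
        rw [hf.extend_apply w V i, hf.extend_apply w' V' i] at h5
        exact h5
      have hoff : ∀ b, (¬ ∃ i : Fin k, j i.succ = b) → V b = V' b := by
        intro b hb
        have h5 := congrFun h4 b
        rwa [Function.extend_apply' _ _ _ hb, Function.extend_apply' _ _ _ hb] at h5
      have hj : ∀ i : Fin (k + 1), V (j i) = V' (j i) := by
        intro i
        induction i using Fin.induction with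
        | zero =>
          apply hoff
          rintro ⟨i, hi⟩
          exact Fin.succ_ne_zero i (hinj hi)
        | succ i ih =>
          have h5 := congrFun h3 i
          have h6 := h2 i
          have h7 := h2' i
          rw [ih] at h5 h6
          exact Fin.ext (by omega)
      have hV : V = V' := by
        funext b
        by_cases hb : ∃ i : Fin k, j i.succ = b
        · obtain ⟨i, rfl⟩ := hb
          exact hj _
        · exact hoff b hb
      rw [hw, hV]
  rw [card_product, card_product, card_univ, card_univ, Fintype.card_fun, Fintype.card_fun,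
    Fintype.card_fin, Fintype.card_fin] at h1
  exact h1

theorem cons_tup (ι : Type) [Fintype ι] [DecidableEq ι] (k : ℕ) (κ : ℝ) (hκ0 : 0 ≤ κ)
    (hκ : κ * (Fintype.card ι : ℝ) ^ (k + 1) < 1) :
    ∃ δ : ℝ, 0 < δ ∧ ∃ T₀ : ℕ, ∀ T : ℕ, T₀ ≤ T → ∀ G : Set (Fin k → ℕ),
      (((Fintype.piFinset fun _ : Fin k => Icc 1 T).filter
        (fun n => n ∈ G)).card : ℝ) ≤ κ * (T : ℝ) ^ k →
      δ * (T : ℝ) ^ (Fintype.card ι) ≤ ((univ.filter (fun V : ι → Fin (T + 1) =>
        Function.Injective V ∧ ∀ j : Fin (k + 1) → ι,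
          (∀ i : Fin k, (V (j i.castSucc) : ℕ) < V (j i.succ)) →
            (fun i : Fin k => (V (j i.succ) : ℕ) - V (j i.castSucc)) ∉ G)).card : ℝ) := by
  obtain ⟨n, hn⟩ : ∃ n, n = Fintype.card ι := ⟨_, rfl⟩
  rw [← hn] at hκ ⊢
  obtain ⟨δ, hδ⟩ : ∃ δ : ℝ, δ = (1 - κ * (n : ℝ) ^ (k + 1)) / 2 := ⟨_, rfl⟩
  have hδ0 : 0 < δ := by rw [hδ]; linarith
  obtain ⟨T₁, hT₁⟩ := exists_nat_gt ((n : ℝ) ^ 2 / δ)
  refine ⟨δ, hδ0, T₁, fun T hT G hG => ?_⟩
  have hN : (0 : ℝ) < ((T : ℝ) + 1) ^ n := by positivity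
  -- non-injective
  obtain ⟨A1, hA1⟩ : ∃ A1, A1 = (univ.filter fun V : ι → Fin (T + 1) =>
    ¬ Function.Injective V) := ⟨_, rfl⟩
  have hA1c : (A1.card : ℝ) ≤ δ * ((T : ℝ) + 1) ^ n := by
    have h1 := noninj ι (T + 1)
    rw [← hA1, ← hn] at h1
    have h2 : ((T : ℝ) + 1) * (A1.card : ℝ) ≤ (n : ℝ) ^ 2 * ((T : ℝ) + 1) ^ n := by
      exact_mod_cast h1
    have h3 : (n : ℝ) ^ 2 ≤ ((T : ℝ) + 1) * δ := by
      rw [div_lt_iff₀ hδ0] at hT₁
      have h4 : (T₁ : ℝ) ≤ T := by exact_mod_cast hT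
      have h5 : (T₁ : ℝ) * δ ≤ T * δ := mul_le_mul_of_nonneg_right h4 hδ0.le
      linarith
    have h4 : (n : ℝ) ^ 2 * ((T : ℝ) + 1) ^ n ≤ ((T : ℝ) + 1) * δ * ((T : ℝ) + 1) ^ n :=
      mul_le_mul_of_nonneg_right h3 hN.le
    have h5 : ((T : ℝ) + 1) * (A1.card : ℝ) ≤ ((T : ℝ) + 1) * (δ * ((T : ℝ) + 1) ^ n) := by
      linarith
    exact le_of_mul_le_mul_left h5 (by positivity)
  -- popular along `j`
  obtain ⟨A2, hA2⟩ : ∃ A2 : (Fin (k + 1) → ι) → Finset (ι → Fin (T + 1)), A2 = fun j =>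
    univ.filter (fun V : ι → Fin (T + 1) =>
      (∀ i : Fin k, (V (j i.castSucc) : ℕ) < V (j i.succ)) ∧
        (fun i : Fin k => (V (j i.succ) : ℕ) - V (j i.castSucc)) ∈ G) := ⟨_, rfl⟩
  have hA2c : ∀ j, ((A2 j).card : ℝ) ≤ κ * ((T : ℝ) + 1) ^ n := by
    intro j
    have h1 := cons_one k T G j
    rw [← hn] at h1
    have h2 : ((T : ℝ) + 1) ^ k * ((A2 j).card : ℝ) ≤
        (((Fintype.piFinset fun _ : Fin k => Icc 1 T).filter
          (fun n => n ∈ G)).card : ℝ) * ((T : ℝ) + 1) ^ n := by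
      rw [hA2]
      exact_mod_cast h1
    have h3 : (((Fintype.piFinset fun _ : Fin k => Icc 1 T).filter
          (fun n => n ∈ G)).card : ℝ) ≤ κ * ((T : ℝ) + 1) ^ k :=
      hG.trans (mul_le_mul_of_nonneg_left
        (pow_le_pow_left₀ (Nat.cast_nonneg _) (by linarith) k) hκ0)
    have h4 := mul_le_mul_of_nonneg_right h3 hN.le
    have h5 : ((T : ℝ) + 1) ^ k * ((A2 j).card : ℝ) ≤
        ((T : ℝ) + 1) ^ k * (κ * ((T : ℝ) + 1) ^ n) := by
      refine (h2.trans h4).trans (le_of_eq ?_)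
      ring
    exact le_of_mul_le_mul_left h5 (by positivity)
  obtain ⟨A3, hA3⟩ : ∃ A3, A3 = (univ.filter (fun V : ι → Fin (T + 1) =>
        Function.Injective V ∧ ∀ j : Fin (k + 1) → ι,
          (∀ i : Fin k, (V (j i.castSucc) : ℕ) < V (j i.succ)) →
            (fun i : Fin k => (V (j i.succ) : ℕ) - V (j i.castSucc)) ∉ G)) := ⟨_, rfl⟩
  have hfin : (univ : Finset (ι → Fin (T + 1))) ⊆ A3 ∪ (A1 ∪ univ.biUnion A2) := by
    intro V _
    rw [mem_union, mem_union, mem_biUnion]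
    by_cases h1 : Function.Injective V
    swap
    · right
      left
      rw [hA1, mem_filter]
      exact ⟨mem_univ _, h1⟩
    by_cases h2 : ∃ j : Fin (k + 1) → ι, (∀ i : Fin k, (V (j i.castSucc) : ℕ) < V (j i.succ)) ∧
        (fun i : Fin k => (V (j i.succ) : ℕ) - V (j i.castSucc)) ∈ G
    · obtain ⟨j, h3, h4⟩ := h2
      right
      right
      refine ⟨j, mem_univ _, ?_⟩
      rw [hA2]
      exact mem_filter.2 ⟨mem_univ _, h3, h4⟩
    · left
      rw [hA3]
      exact mem_filter.2 ⟨mem_univ _, h1, fun j h3 h4 => h2 ⟨j, h3, h4⟩⟩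
  have h1 := card_le_card hfin
  have h2 := card_union_le A3 (A1 ∪ univ.biUnion A2)
  have h3 := card_union_le A1 (univ.biUnion A2)
  have h4 : (univ.biUnion A2).card ≤ ∑ j : Fin (k + 1) → ι, (A2 j).card := card_biUnion_le
  rw [card_univ, Fintype.card_fun, Fintype.card_fin, ← hn] at h1
  have h5 : (T + 1) ^ n ≤ A3.card + (A1.card + ∑ j : Fin (k + 1) → ι, (A2 j).card) := by omega
  have h6 : ((T : ℝ) + 1) ^ n ≤ (A3.card : ℝ) + (A1.card + ∑ j : Fin (k + 1) → ι,
      ((A2 j).card : ℝ)) := by exact_mod_cast h5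
  have h7 : ∑ j : Fin (k + 1) → ι, ((A2 j).card : ℝ) ≤
      (n : ℝ) ^ (k + 1) * (κ * ((T : ℝ) + 1) ^ n) := by
    refine (sum_le_sum fun j _ => hA2c j).trans (le_of_eq ?_)
    rw [sum_const, card_univ, Fintype.card_fun, Fintype.card_fin, ← hn, nsmul_eq_mul,
      Nat.cast_pow]
  have h8 : δ * ((T : ℝ) + 1) ^ n ≤ (A3.card : ℝ) := by
    have h9 : ((T : ℝ) + 1) ^ n - δ * ((T : ℝ) + 1) ^ n -
        (n : ℝ) ^ (k + 1) * (κ * ((T : ℝ) + 1) ^ n) = δ * ((T : ℝ) + 1) ^ n := by
      rw [hδ]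
      ring
    linarith
  rw [← hA3]
  refine le_trans (mul_le_mul_of_nonneg_left ?_ hδ0.le) h8
  exact pow_le_pow_left₀ (Nat.cast_nonneg _) (by linarith) n

end Pool.Agent.H21.GC
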