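import Mathlib

/-!
# Part C of Theorem G (MP_8923e7_nt): four points, two classes modulo 3 ([K4] for T2 and G)

`G` = the popular numbers (`m ∈ G` if `2m` is popular). If fewer than a third of the `m ≤ T` are in `G`, there are
`≥ c T³` triples `x < y < n ≤ T`, `n ≡ 0`, `x ≡ y ≡ 1 mod 3`, with all six differences of `0, x, y, n` outside `G`.
-/

set_option autoImplicit false

open Finset

open scoped Classical

namespace Pool.Agent.H21.GC

/-- pairs whose difference avoids `D` -/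
theorem pair_avoid (D V : Finset ℕ) : (V.card - D.card).choose 2 ≤
    ((V ×ˢ V).filter (fun q : ℕ × ℕ => q.1 < q.2 ∧ q.2 - q.1 ∉ D)).card := by
  induction V using Finset.induction_on_max with
  | empty => simp
  | insert a s ha ih =>
    have hs : a ∉ s := fun h => lt_irrefl _ (ha a h)
    have h1 : (s.filter (fun p => a - p ∉ D)).card + D.card ≥ s.card := by
      have h2 : (s.filter (fun p => ¬ a - p ∉ D)).card ≤ D.card := by
        refine card_le_card_of_injOn (fun p => a - p) ?_ ?_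
        · intro p hp
          rw [mem_coe, mem_filter] at hp
          exact not_not.1 hp.2
        · intro p hp p' hp' h
          rw [mem_coe, mem_filter] at hp hp'
          have h3 := ha p hp.1
          have h4 := ha p' hp'.1
          have h5 : a - p = a - p' := h
          omega
      have h3 := card_filter_add_card_filter_not (s := s) (fun p => a - p ∉ D)
      omega
    have h2 : ((s ×ˢ s).filter (fun q : ℕ × ℕ => q.1 < q.2 ∧ q.2 - q.1 ∉ D)).card +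
        (s.filter (fun p => a - p ∉ D)).card ≤
        ((insert a s ×ˢ insert a s).filter (fun q : ℕ × ℕ => q.1 < q.2 ∧ q.2 - q.1 ∉ D)).card := by
      have h3 : ((s.filter (fun p => a - p ∉ D)).image (fun p => (p, a))).card =
          (s.filter (fun p => a - p ∉ D)).card :=
        card_image_of_injective _ fun p p' h => (Prod.mk.inj h).1
      rw [← h3, ← card_union_of_disjoint]
      · refine card_le_card ?_
        intro q hq
        rw [mem_union, mem_filter, mem_image] at hq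
        rw [mem_filter, mem_product]
        rcases hq with ⟨hq1, hq2⟩ | ⟨p, hp, rfl⟩
        · rw [mem_product] at hq1
          exact ⟨⟨mem_insert_of_mem hq1.1, mem_insert_of_mem hq1.2⟩, hq2⟩
        · rw [mem_filter] at hp
          exact ⟨⟨mem_insert_of_mem hp.1, mem_insert_self _ _⟩, ha p hp.1, hp.2⟩
      · rw [disjoint_left]
        intro q hq hq'
        rw [mem_filter, mem_product] at hq
        rw [mem_image] at hq'
        obtain ⟨p, _, rfl⟩ := hq'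
        exact hs hq.1.2
    rw [card_insert_of_notMem hs]
    have h3 : (s.card + 1 - D.card).choose 2 ≤
        (s.card - D.card).choose 2 + (s.card - D.card) := by
      rcases Nat.lt_or_ge s.card D.card with h | h
      · have e : s.card + 1 - D.card = 0 := by omega
        rw [e]
        simp
      · have e : s.card + 1 - D.card = (s.card - D.card) + 1 := by omega
        have e2 : ((s.card - D.card) + 1).choose 2 =
            (s.card - D.card) + (s.card - D.card).choose 2 := by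
          rw [Nat.choose_succ_succ' (s.card - D.card) 1, Nat.choose_one_right]
        rw [e, e2]
        omega
    omega

private noncomputable def cn (G : Set ℕ) (a : ℕ → ℕ) (t : ℕ) : ℕ :=
  ((Icc 1 t).filter (fun i => a i ∈ G)).card

private theorem cn_mono (G : Set ℕ) (a : ℕ → ℕ) {s t : ℕ} (h : s ≤ t) : cn G a s ≤ cn G a t :=
  card_le_card (filter_subset_filter _ (Icc_subset_Icc le_rfl h))

private noncomputable def gg (G : Set ℕ) (t : ℕ) : ℕ :=
  cn G (fun i => 3 * i) t + cn G (fun i => 3 * i + 1) t + cn G (fun i => 3 * i - 1) t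

private theorem cn_diff (G : Set ℕ) (a : ℕ → ℕ) {s t : ℕ} (h : s ≤ t) :
    cn G a t = cn G a s + ((Ioc s t).filter (fun i => a i ∈ G)).card := by
  unfold cn
  rw [← card_union_of_disjoint]
  · congr 1
    rw [← filter_union]
    congr 1
    ext i
    rw [mem_union, mem_Icc, mem_Icc, mem_Ioc]
    omega
  · rw [disjoint_left]
    intro i hi hi'
    rw [mem_filter, mem_Icc] at hi
    rw [mem_filter, mem_Ioc] at hi'
    omega

/-- the number of blocks without popular elements -/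
private theorem gg_free (G : Set ℕ) {s t : ℕ} (h : s ≤ t) : t - s ≤ gg G t - gg G s +
    ((Ioc s t).filter (fun j => 3 * j ∉ G ∧ 3 * j + 1 ∉ G ∧ 3 * j - 1 ∉ G)).card := by
  unfold gg
  rw [cn_diff G (fun i => 3 * i) h, cn_diff G (fun i => 3 * i + 1) h,
    cn_diff G (fun i => 3 * i - 1) h]
  have h1 : Ioc s t ⊆ ((Ioc s t).filter (fun i => 3 * i ∈ G)) ∪
      (((Ioc s t).filter (fun i => 3 * i + 1 ∈ G)) ∪ (((Ioc s t).filter (fun i => 3 * i - 1 ∈ G)) ∪
        ((Ioc s t).filter (fun j => 3 * j ∉ G ∧ 3 * j + 1 ∉ G ∧ 3 * j - 1 ∉ G)))) := by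
    intro j hj
    simp only [mem_union, mem_filter]
    by_cases h1 : 3 * j ∈ G
    · exact Or.inl ⟨hj, h1⟩
    · by_cases h2 : 3 * j + 1 ∈ G
      · exact Or.inr (Or.inl ⟨hj, h2⟩)
      · by_cases h3 : 3 * j - 1 ∈ G
        · exact Or.inr (Or.inr (Or.inl ⟨hj, h3⟩))
        · exact Or.inr (Or.inr (Or.inr ⟨hj, h1, h2, h3⟩))
  have h2 := card_le_card h1
  have h3 := card_union_le ((Ioc s t).filter (fun i => 3 * i ∈ G))
    (((Ioc s t).filter (fun i => 3 * i + 1 ∈ G)) ∪ (((Ioc s t).filter (fun i => 3 * i - 1 ∈ G)) ∪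
        ((Ioc s t).filter (fun j => 3 * j ∉ G ∧ 3 * j + 1 ∉ G ∧ 3 * j - 1 ∉ G))))
  have h4 := card_union_le ((Ioc s t).filter (fun i => 3 * i + 1 ∈ G))
    (((Ioc s t).filter (fun i => 3 * i - 1 ∈ G)) ∪
        ((Ioc s t).filter (fun j => 3 * j ∉ G ∧ 3 * j + 1 ∉ G ∧ 3 * j - 1 ∉ G)))
  have h5 := card_union_le ((Ioc s t).filter (fun i => 3 * i - 1 ∈ G))
    ((Ioc s t).filter (fun j => 3 * j ∉ G ∧ 3 * j + 1 ∉ G ∧ 3 * j - 1 ∉ G))
  rw [Nat.card_Ioc] at h2
  omega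

private theorem gg_le (G : Set ℕ) (t T : ℕ) (h : 3 * t + 1 ≤ T) :
    gg G t ≤ ((Icc 1 T).filter (fun m => m ∈ G)).card := by
  unfold gg cn
  have h0 : ((((Icc 1 t).filter (fun i => 3 * i ∈ G)).image (fun i => 3 * i))).card =
      ((Icc 1 t).filter (fun i => 3 * i ∈ G)).card :=
    card_image_of_injective _ fun a b hab => by
      have : 3 * a = 3 * b := hab
      omega
  have h1 : ((((Icc 1 t).filter (fun i => 3 * i + 1 ∈ G)).image (fun i => 3 * i + 1))).card =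
      ((Icc 1 t).filter (fun i => 3 * i + 1 ∈ G)).card :=
    card_image_of_injective _ fun a b hab => by
      have : 3 * a + 1 = 3 * b + 1 := hab
      omega
  have h2 : ((((Icc 1 t).filter (fun i => 3 * i - 1 ∈ G)).image (fun i => 3 * i - 1))).card =
      ((Icc 1 t).filter (fun i => 3 * i - 1 ∈ G)).card := by
    refine card_image_of_injOn ?_
    intro a ha b hb hab
    rw [mem_coe, mem_filter, mem_Icc] at ha hb
    have : 3 * a - 1 = 3 * b - 1 := hab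
    omega
  rw [← h0, ← h1, ← h2, ← card_union_of_disjoint, ← card_union_of_disjoint]
  · refine card_le_card ?_
    intro m hm
    simp only [mem_union, mem_image, mem_filter, mem_Icc] at hm ⊢
    rcases hm with (⟨i, hi, rfl⟩ | ⟨i, hi, rfl⟩) | ⟨i, hi, rfl⟩
    · exact ⟨by omega, hi.2⟩
    · exact ⟨by omega, hi.2⟩
    · exact ⟨by omega, hi.2⟩
  · rw [disjoint_left]
    intro m hm hm'
    simp only [mem_union, mem_image, mem_filter, mem_Icc] at hm hm'
    rcases hm with ⟨i, hi, rfl⟩ | ⟨i, hi, rfl⟩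
    · obtain ⟨i', hi', h'⟩ := hm'
      omega
    · obtain ⟨i', hi', h'⟩ := hm'
      omega
  · rw [disjoint_left]
    intro m hm hm'
    simp only [mem_image, mem_filter, mem_Icc] at hm hm'
    obtain ⟨i, hi, rfl⟩ := hm
    obtain ⟨i', hi', h'⟩ := hm'
    omega

/-- the number of good pairs under a given `n = 3 j` -/
private theorem block_pairs (G : Set ℕ) (j : ℕ) (hj : 1 ≤ j) :
    (j - 1 - gg G j).choose 2 ≤ (((Icc 1 (j - 1)) ×ˢ (Icc 1 (j - 1))).filter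
      (fun q : ℕ × ℕ => q.1 < q.2 ∧ 3 * q.1 + 1 ∉ G ∧ 3 * (j - q.1) - 1 ∉ G ∧
        3 * q.2 + 1 ∉ G ∧ 3 * (j - q.2) - 1 ∉ G ∧ 3 * (q.2 - q.1) ∉ G)).card := by
  obtain ⟨V, hV⟩ : ∃ V, V = (Icc 1 (j - 1)).filter (fun p => 3 * p + 1 ∉ G ∧ 3 * (j - p) - 1 ∉ G) :=
    ⟨_, rfl⟩
  obtain ⟨D, hD⟩ : ∃ D, D = (Icc 1 j).filter (fun d => 3 * d ∈ G) := ⟨_, rfl⟩
  have h1 : j - 1 - gg G j ≤ V.card - D.card := by
    have h2 : (Icc 1 (j - 1)) ⊆ V ∪ (((Icc 1 (j - 1)).filter (fun i => 3 * i + 1 ∈ G)) ∪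
        (((Icc 1 (j - 1)).filter (fun i => 3 * (j - i) - 1 ∈ G)))) := by
      intro p hp
      rw [hV]
      simp only [mem_union, mem_filter]
      by_cases ha : 3 * p + 1 ∈ G
      · exact Or.inr (Or.inl ⟨hp, ha⟩)
      · by_cases hb : 3 * (j - p) - 1 ∈ G
        · exact Or.inr (Or.inr ⟨hp, hb⟩)
        · exact Or.inl ⟨hp, ha, hb⟩
    have h3 := card_le_card h2
    have h4 := card_union_le V (((Icc 1 (j - 1)).filter (fun i => 3 * i + 1 ∈ G)) ∪
        (((Icc 1 (j - 1)).filter (fun i => 3 * (j - i) - 1 ∈ G))))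
    have h5 := card_union_le ((Icc 1 (j - 1)).filter (fun i => 3 * i + 1 ∈ G))
      ((Icc 1 (j - 1)).filter (fun i => 3 * (j - i) - 1 ∈ G))
    have h6 : ((Icc 1 (j - 1)).filter (fun i => 3 * i + 1 ∈ G)).card ≤
        cn G (fun i => 3 * i + 1) j :=
      card_le_card (filter_subset_filter _ (Icc_subset_Icc le_rfl (by omega)))
    have h7 : ((Icc 1 (j - 1)).filter (fun i => 3 * (j - i) - 1 ∈ G)).card ≤
        cn G (fun i => 3 * i - 1) j := by
      unfold cn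
      refine card_le_card_of_injOn (fun i => j - i) ?_ ?_
      · intro i hi
        rw [mem_coe, mem_filter, mem_Icc] at hi
        change j - i ∈ _
        rw [mem_coe, mem_filter, mem_Icc]
        exact ⟨by omega, hi.2⟩
      · intro a ha b hb hab
        rw [mem_coe, mem_filter, mem_Icc] at ha hb
        have : j - a = j - b := hab
        omega
    have h8 : D.card = cn G (fun i => 3 * i) j := by rw [hD]; rfl
    rw [Nat.card_Icc] at h3
    unfold gg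
    omega
  refine (Nat.choose_le_choose 2 h1).trans ((pair_avoid D V).trans (card_le_card ?_))
  intro q hq
  rw [mem_filter, mem_product, hV, mem_filter, mem_filter, mem_Icc, mem_Icc] at hq
  rw [mem_filter, mem_product, mem_Icc, mem_Icc]
  obtain ⟨⟨⟨h2, h3, h4⟩, h5, h6, h7⟩, h8, h9⟩ := hq
  refine ⟨⟨h2, h5⟩, h8, h3, h4, h6, h7, ?_⟩
  intro h
  apply h9
  rw [hD, mem_filter, mem_Icc]
  exact ⟨by omega, h⟩

theorem four_points (ε : ℝ) (hε : 0 < ε) : ∃ c : ℝ, 0 < c ∧ ∃ T₀ : ℕ, ∀ T : ℕ, T₀ ≤ T →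
    ∀ G : Set ℕ, (((Icc 1 T).filter (fun m => m ∈ G)).card : ℝ) ≤ (1 / 3 - ε) * T →
      c * (T : ℝ) ^ 3 ≤ (((range (T + 1) ×ˢ range (T + 1) ×ˢ range (T + 1)).filter
        (fun q : ℕ × ℕ × ℕ => 0 < q.1 ∧ q.1 < q.2.1 ∧ q.2.1 < q.2.2 ∧
          q.1 % 3 = 1 ∧ q.2.1 % 3 = 1 ∧ q.2.2 % 3 = 0 ∧
          q.1 ∉ G ∧ q.2.1 ∉ G ∧ q.2.2 ∉ G ∧ q.2.1 - q.1 ∉ G ∧ q.2.2 - q.1 ∉ G ∧
            q.2.2 - q.2.1 ∉ G)).card : ℝ) := by
  obtain ⟨T₁, hT₁⟩ := exists_nat_gt (16 / ε)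
  refine ⟨ε ^ 4 / (256 * 216), by positivity, 6 * T₁ + 12, fun T hT G hG => ?_⟩
  have hTr : (0 : ℝ) < T := by
    have : 0 < T := by omega
    exact_mod_cast this
  have hε3 : ε ≤ 1 / 3 := by
    by_contra h
    rw [not_le] at h
    have h1 : (1 / 3 - ε) * (T : ℝ) < 0 := mul_neg_of_neg_of_pos (by linarith) hTr
    have h2 : (0 : ℝ) ≤ (((Icc 1 T).filter (fun m => m ∈ G)).card : ℝ) := Nat.cast_nonneg _
    linarith
  obtain ⟨S, hS⟩ : ∃ S, S = (T - 1) / 3 := ⟨_, rfl⟩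
  have hS1 : 3 * S + 1 ≤ T := by omega
  have hS2 : T ≤ 3 * S + 3 := by omega
  have hS3 : T₁ ≤ S := by omega
  have hS4 : T ≤ 6 * S := by omega
  have hSε : 16 < ε * S := by
    have h1 : (T₁ : ℝ) ≤ S := by exact_mod_cast hS3
    rw [div_lt_iff₀ hε] at hT₁
    nlinarith
  have hgS : (gg G S : ℝ) ≤ (1 - 3 * ε) * (S + 1) := by
    have h1 : (gg G S : ℝ) ≤ (((Icc 1 T).filter (fun m => m ∈ G)).card : ℝ) := by
      exact_mod_cast gg_le G S T hS1
    have h2 : (T : ℝ) ≤ 3 * S + 3 := by exact_mod_cast hS2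
    nlinarith
  -- argmax
  obtain ⟨t, ht, hmax⟩ := exists_max_image (range (S + 1))
    (fun t : ℕ => (1 - ε / 2) * (t : ℝ) - (gg G t : ℝ)) ⟨0, by simp⟩
  have htS : t ≤ S := by
    rw [mem_range] at ht
    omega
  have ha : ε * S ≤ (1 - ε / 2) * (t : ℝ) - (gg G t : ℝ) := by
    have h1 : (1 - ε / 2) * (S : ℝ) - (gg G S : ℝ) ≤ (1 - ε / 2) * (t : ℝ) - (gg G t : ℝ) :=
      hmax S (by simp)
    have h2 : (1 - 3 * ε) * ((S : ℝ) + 1) = S + 1 - 3 * (ε * S) - 3 * ε := by ring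
    have h3 : (1 - ε / 2) * (S : ℝ) = S - ε * S / 2 := by ring
    rw [h2] at hgS
    rw [h3] at h1
    linarith
  have hb : ∀ u : ℕ, u ≤ t → (gg G t : ℝ) - gg G u ≤ (1 - ε / 2) * ((t : ℝ) - u) := by
    intro u hu
    have h1 : (1 - ε / 2) * (u : ℝ) - (gg G u : ℝ) ≤ (1 - ε / 2) * (t : ℝ) - (gg G t : ℝ) :=
      hmax u (by rw [mem_range]; omega)
    have h2 : (1 - ε / 2) * ((t : ℝ) - u) = (1 - ε / 2) * t - (1 - ε / 2) * u := by ring
    rw [h2]
    linarith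
  have htr : ε * S ≤ t := by
    have h1 : (0 : ℝ) ≤ (gg G t : ℝ) := Nat.cast_nonneg _
    have h2 : (0 : ℝ) ≤ (t : ℝ) := Nat.cast_nonneg _
    have h3 : (1 - ε / 2) * (t : ℝ) ≤ t := mul_le_of_le_one_left h2 (by linarith)
    linarith
  -- the window
  obtain ⟨w, hw⟩ : ∃ w, w = ⌊ε * S / 4⌋₊ := ⟨_, rfl⟩
  have hεS : 0 ≤ ε * S / 4 := by positivity
  have hw1 : (w : ℝ) ≤ ε * S / 4 := by
    rw [hw]
    exact Nat.floor_le hεS
  have hw2 : ε * S / 8 ≤ w := by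
    have h1 := Nat.lt_floor_add_one (ε * S / 4)
    rw [← hw] at h1
    linarith
  have hwt : w ≤ t := by
    have h1 : (w : ℝ) ≤ t := by linarith
    exact_mod_cast h1
  obtain ⟨J, hJ⟩ : ∃ J, J = (Ioc (t - w) t).filter
    (fun j => 3 * j ∉ G ∧ 3 * j + 1 ∉ G ∧ 3 * j - 1 ∉ G) := ⟨_, rfl⟩
  have hJc : ε / 2 * w ≤ (J.card : ℝ) := by
    have h1 := gg_free G (show t - w ≤ t by omega)
    rw [← hJ] at h1
    have h2 := hb (t - w) (by omega)
    have h3 : ((t - w : ℕ) : ℝ) = (t : ℝ) - w := Nat.cast_sub hwt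
    rw [h3] at h2
    have h4 : w ≤ gg G t - gg G (t - w) + J.card := by omega
    have h5 : gg G (t - w) ≤ gg G t := by
      unfold gg
      have e1 := cn_mono G (fun i => 3 * i) (show t - w ≤ t by omega)
      have e2 := cn_mono G (fun i => 3 * i + 1) (show t - w ≤ t by omega)
      have e3 := cn_mono G (fun i => 3 * i - 1) (show t - w ≤ t by omega)
      omega
    have h6 : (w : ℝ) ≤ (gg G t : ℝ) - gg G (t - w) + J.card := by
      have h7 : w + gg G (t - w) ≤ gg G t + J.card := by omega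
      have h8 : (w : ℝ) + gg G (t - w) ≤ (gg G t : ℝ) + J.card := by exact_mod_cast h7
      linarith
    linarith
  -- pairs for every `j ∈ J`
  have hpj : ∀ j ∈ J, (ε * S) ^ 2 / 16 ≤ ((((Icc 1 (j - 1)) ×ˢ (Icc 1 (j - 1))).filter
      (fun q : ℕ × ℕ => q.1 < q.2 ∧ 3 * q.1 + 1 ∉ G ∧ 3 * (j - q.1) - 1 ∉ G ∧
        3 * q.2 + 1 ∉ G ∧ 3 * (j - q.2) - 1 ∉ G ∧ 3 * (q.2 - q.1) ∉ G)).card : ℝ) := by
    intro j hj
    rw [hJ, mem_filter, mem_Ioc] at hj
    obtain ⟨⟨hj1, hj2⟩, -⟩ := hj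
    have hj0 : 1 ≤ j := by omega
    have h1 := block_pairs G j hj0
    have hgj : (gg G j : ℝ) ≤ gg G t := by
      have e1 := cn_mono G (fun i => 3 * i) hj2
      have e2 := cn_mono G (fun i => 3 * i + 1) hj2
      have e3 := cn_mono G (fun i => 3 * i - 1) hj2
      have : gg G j ≤ gg G t := by
        unfold gg
        omega
      exact_mod_cast this
    have hjr : (t : ℝ) - w ≤ j := by
      have h2 : t ≤ j + w := by omega
      have h3 : (t : ℝ) ≤ j + w := by exact_mod_cast h2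
      linarith
    have ht0 : (0 : ℝ) ≤ t := Nat.cast_nonneg _
    have h2 : ε * S / 2 ≤ (j : ℝ) - 1 - gg G j := by
      have h3 : (1 - ε / 2) * (t : ℝ) ≤ t := mul_le_of_le_one_left ht0 (by linarith)
      linarith
    have h3 : gg G j ≤ j - 1 := by
      have h4 : (gg G j : ℝ) + 1 ≤ j := by linarith
      have h5 : gg G j + 1 ≤ j := by exact_mod_cast h4
      omega
    have h4 : ((j - 1 - gg G j : ℕ) : ℝ) = (j : ℝ) - 1 - gg G j := by
      rw [Nat.cast_sub h3, Nat.cast_sub hj0, Nat.cast_one]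
    have h5 : (ε * S) ^ 2 / 16 ≤ (((j - 1 - gg G j).choose 2 : ℕ) : ℝ) := by
      rw [Nat.cast_choose_two, h4]
      obtain ⟨y, hy⟩ : ∃ y, y = (j : ℝ) - 1 - gg G j := ⟨_, rfl⟩
      rw [← hy] at h2 ⊢
      obtain ⟨z, hz⟩ : ∃ z, z = ε * S := ⟨_, rfl⟩
      rw [← hz] at h2 hSε ⊢
      have h6 : z / 2 * (z / 2 - 1) ≤ y * (y - 1) := by
        apply mul_le_mul h2 (by linarith) (by linarith) (by linarith)
      have h7 : z / 2 * (z / 4) ≤ z / 2 * (z / 2 - 1) :=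
        mul_le_mul_of_nonneg_left (by linarith) (by linarith)
      have h8 : z ^ 2 / 16 = z / 2 * (z / 4) / 2 := by ring
      rw [h8]
      linarith
    have h6 : (((j - 1 - gg G j).choose 2 : ℕ) : ℝ) ≤ ((((Icc 1 (j - 1)) ×ˢ
        (Icc 1 (j - 1))).filter (fun q : ℕ × ℕ => q.1 < q.2 ∧ 3 * q.1 + 1 ∉ G ∧
        3 * (j - q.1) - 1 ∉ G ∧ 3 * q.2 + 1 ∉ G ∧ 3 * (j - q.2) - 1 ∉ G ∧
        3 * (q.2 - q.1) ∉ G)).card : ℝ) := Nat.cast_le.2 h1
    exact h5.trans h6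
  -- total
  have htot : ((J.sigma (fun j => ((Icc 1 (j - 1)) ×ˢ (Icc 1 (j - 1))).filter
      (fun q : ℕ × ℕ => q.1 < q.2 ∧ 3 * q.1 + 1 ∉ G ∧ 3 * (j - q.1) - 1 ∉ G ∧
        3 * q.2 + 1 ∉ G ∧ 3 * (j - q.2) - 1 ∉ G ∧ 3 * (q.2 - q.1) ∉ G))).card : ℝ) ≤
      (((range (T + 1) ×ˢ range (T + 1) ×ˢ range (T + 1)).filter
        (fun q : ℕ × ℕ × ℕ => 0 < q.1 ∧ q.1 < q.2.1 ∧ q.2.1 < q.2.2 ∧
          q.1 % 3 = 1 ∧ q.2.1 % 3 = 1 ∧ q.2.2 % 3 = 0 ∧
          q.1 ∉ G ∧ q.2.1 ∉ G ∧ q.2.2 ∉ G ∧ q.2.1 - q.1 ∉ G ∧ q.2.2 - q.1 ∉ G ∧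
            q.2.2 - q.2.1 ∉ G)).card : ℝ) := by
    have h1 : (J.sigma (fun j => ((Icc 1 (j - 1)) ×ˢ (Icc 1 (j - 1))).filter
      (fun q : ℕ × ℕ => q.1 < q.2 ∧ 3 * q.1 + 1 ∉ G ∧ 3 * (j - q.1) - 1 ∉ G ∧
        3 * q.2 + 1 ∉ G ∧ 3 * (j - q.2) - 1 ∉ G ∧ 3 * (q.2 - q.1) ∉ G))).card ≤
      ((range (T + 1) ×ˢ range (T + 1) ×ˢ range (T + 1)).filter
        (fun q : ℕ × ℕ × ℕ => 0 < q.1 ∧ q.1 < q.2.1 ∧ q.2.1 < q.2.2 ∧
          q.1 % 3 = 1 ∧ q.2.1 % 3 = 1 ∧ q.2.2 % 3 = 0 ∧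
          q.1 ∉ G ∧ q.2.1 ∉ G ∧ q.2.2 ∉ G ∧ q.2.1 - q.1 ∉ G ∧ q.2.2 - q.1 ∉ G ∧
            q.2.2 - q.2.1 ∉ G)).card := by
      refine card_le_card_of_injOn (fun x => (3 * x.2.1 + 1, 3 * x.2.2 + 1, 3 * x.1)) ?_ ?_
      · rintro ⟨j, p, q⟩ hx
        rw [mem_coe, mem_sigma] at hx
        obtain ⟨hj, hx⟩ := hx
        simp only at hj hx
        rw [hJ, mem_filter, mem_Ioc] at hj
        obtain ⟨⟨hj1, hj2⟩, hj3, -, -⟩ := hj
        rw [mem_filter, mem_product, mem_Icc, mem_Icc] at hx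
        obtain ⟨⟨hp, hq⟩, hpq, h1, h2, h3, h4, h5⟩ := hx
        simp only at hp hq hpq h1 h2 h3 h4 h5
        rw [mem_coe, mem_filter, mem_product, mem_product, mem_range, mem_range, mem_range]
        simp only
        have e1 : 3 * j - (3 * p + 1) = 3 * (j - p) - 1 := by omega
        have e2 : 3 * j - (3 * q + 1) = 3 * (j - q) - 1 := by omega
        have e3 : 3 * q + 1 - (3 * p + 1) = 3 * (q - p) := by omega
        refine ⟨⟨by omega, by omega, by omega⟩, by omega, by omega, by omega, by omega, by omega,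
          by omega, h1, h3, hj3, ?_, ?_, ?_⟩
        · rw [e3]; exact h5
        · rw [e1]; exact h2
        · rw [e2]; exact h4
      · rintro ⟨j, p, q⟩ _ ⟨j', p', q'⟩ _ h
        simp only [Prod.mk.injEq] at h
        obtain ⟨h1, h2, h3⟩ := h
        obtain rfl : p = p' := by omega
        obtain rfl : q = q' := by omega
        obtain rfl : j = j' := by omega
        rfl
    exact_mod_cast h1
  refine le_trans ?_ htot
  rw [card_sigma, Nat.cast_sum]
  have h1 : (J.card : ℝ) * ((ε * S) ^ 2 / 16) ≤ ∑ j ∈ J, ((((Icc 1 (j - 1)) ×ˢ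
      (Icc 1 (j - 1))).filter (fun q : ℕ × ℕ => q.1 < q.2 ∧ 3 * q.1 + 1 ∉ G ∧
        3 * (j - q.1) - 1 ∉ G ∧ 3 * q.2 + 1 ∉ G ∧ 3 * (j - q.2) - 1 ∉ G ∧
        3 * (q.2 - q.1) ∉ G)).card : ℝ) := by
    rw [← nsmul_eq_mul, ← sum_const]
    exact sum_le_sum hpj
  refine le_trans ?_ h1
  have h2 : ε / 2 * (ε * S / 8) ≤ (J.card : ℝ) :=
    (mul_le_mul_of_nonneg_left hw2 (by positivity)).trans hJc
  have h3 := mul_le_mul_of_nonneg_right h2 (show (0 : ℝ) ≤ (ε * S) ^ 2 / 16 by positivity)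
  refine le_trans ?_ h3
  have h4 : (T : ℝ) ≤ 6 * S := by exact_mod_cast hS4
  have h5 : (T : ℝ) ^ 3 ≤ (6 * S) ^ 3 := pow_le_pow_left₀ hTr.le h4 3
  have h6 : ε ^ 4 / (256 * 216) * (T : ℝ) ^ 3 ≤ ε ^ 4 / (256 * 216) * (6 * (S : ℝ)) ^ 3 :=
    mul_le_mul_of_nonneg_left h5 (by positivity)
  refine h6.trans (le_of_eq ?_)
  ring

end Pool.Agent.H21.GC
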