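import Pool.Agent.H21.GC.BoxCount
import Pool.Agent.H21.GC.K4
import Pool.Agent.H21.GC.NonInj

/-!
# Part C of Theorem G (MP_8923e7_nt): boxes of four cells, all even differences

If fewer than a third of the `m ≤ T` are popular (in `G`), a positive proportion of the boxes `V` of four cells of
`s` numbers `≤ 2T` is such that the `4s` numbers are different, `2V` is admissible and no difference of elements of
different cells is in `G`.
-/

set_option autoImplicit false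

open Finset

open scoped Classical

namespace Pool.Agent.H21.GC

/-- fewer than `p` residues: there is a shift -/
private theorem exists_shift (p : ℕ) (S : Finset ℕ) (h : (S.image (fun n => n % p)).card < p) :
    ∃ a : ℕ, ∀ n ∈ S, ¬ p ∣ a + n := by
  obtain ⟨r, hr, hr'⟩ : ∃ r ∈ range p, r ∉ S.image (fun n => n % p) := by
    by_contra hcon
    have hcon' : range p ⊆ S.image (fun n => n % p) := by
      intro r hr
      by_contra h1
      exact hcon ⟨r, hr, h1⟩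
    have := card_le_card hcon'
    rw [card_range] at this
    omega
  rw [mem_range] at hr
  refine ⟨p - r, fun n hn hdvd => hr' ?_⟩
  rw [mem_image]
  refine ⟨n, hn, ?_⟩
  have h1 : (p - r + n) + r = n + p := by omega
  have h2 : n ≡ r [MOD p] := by
    have h3 : (p - r + n) + r ≡ 0 + r [MOD p] :=
      Nat.ModEq.add_right r ((Nat.modEq_zero_iff_dvd).2 hdvd)
    rw [h1, zero_add] at h3
    have h4 : n + p ≡ n [MOD p] := Nat.add_mod_right n p
    exact h4.symm.trans h3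
  have h3 : n % p = r % p := h2
  rw [h3, Nat.mod_eq_of_lt hr]

/-- admissibility of the box -/
private theorem adm_box (s : ℕ) (V : Fin 4 → Fin s → ℕ) (ρ : Fin 4 → ℕ)
    (hρ : ∀ i j, V i j % (3 * (4 * s).factorial) = ρ i)
    (h03 : ρ 3 % 3 = ρ 0 % 3) (h12 : ρ 2 % 3 = ρ 1 % 3) (p : ℕ) (hp : p.Prime) :
    ∃ a : ℕ, ∀ i j, ¬ p ∣ a + 2 * V i j := by
  obtain ⟨a, ha⟩ := exists_shift p ((univ : Finset (Fin 4 × Fin s)).image
    (fun q => 2 * V q.1 q.2)) (by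
      rw [image_image]
      by_cases hp2 : p = 2
      · subst hp2
        refine lt_of_le_of_lt (card_le_card (t := {0}) ?_) (by simp)
        intro r hr
        rw [mem_image] at hr
        obtain ⟨q, -, rfl⟩ := hr
        rw [mem_singleton]
        change (2 * V q.1 q.2) % 2 = 0
        omega
      · by_cases hp3 : p = 3
        · subst hp3
          refine lt_of_le_of_lt (card_le_card (t := {(2 * ρ 0) % 3, (2 * ρ 1) % 3}) ?_)
            (lt_of_le_of_lt card_le_two (by norm_num))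
          intro r hr
          rw [mem_image] at hr
          obtain ⟨q, -, rfl⟩ := hr
          rw [mem_insert, mem_singleton]
          change (2 * V q.1 q.2) % 3 = _ ∨ (2 * V q.1 q.2) % 3 = _
          have h1 : V q.1 q.2 % 3 = ρ q.1 % 3 := by
            rw [← hρ q.1 q.2, Nat.mod_mod_of_dvd _ (Dvd.intro _ rfl)]
          obtain ⟨q1, q2⟩ := q
          simp only at h1 ⊢
          fin_cases q1
          · left
            simp only [Fin.zero_eta] at h1 ⊢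
            omega
          · right
            simp only [Fin.mk_one] at h1 ⊢
            omega
          · right
            have h1' : V 2 q2 % 3 = ρ 2 % 3 := h1
            change (2 * V 2 q2) % 3 = _
            omega
          · left
            have h1' : V 3 q2 % 3 = ρ 3 % 3 := h1
            change (2 * V 3 q2) % 3 = _
            omega
        · have hp5 : 5 ≤ p := by
            have h2 := hp.two_le
            have h4 : p ≠ 4 := by
              intro h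
              rw [h] at hp
              exact absurd hp (by norm_num)
            omega
          by_cases hps : p ≤ 4 * s
          · have hdvd : p ∣ 3 * (4 * s).factorial :=
              Dvd.dvd.mul_left ((Nat.Prime.dvd_factorial hp).2 hps) 3
            refine lt_of_le_of_lt (card_le_card
              (t := (univ : Finset (Fin 4)).image (fun i => (2 * ρ i) % p)) ?_)
              (lt_of_le_of_lt card_image_le (by rw [card_univ, Fintype.card_fin]; omega))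
            intro r hr
            rw [mem_image] at hr
            obtain ⟨q, -, rfl⟩ := hr
            rw [mem_image]
            refine ⟨q.1, mem_univ _, ?_⟩
            change (2 * ρ q.1) % p = (2 * V q.1 q.2) % p
            have h1 : V q.1 q.2 % p = ρ q.1 % p := by
              rw [← hρ q.1 q.2, Nat.mod_mod_of_dvd _ hdvd]
            rw [Nat.mul_mod, ← h1, ← Nat.mul_mod]
          · refine lt_of_le_of_lt card_image_le ?_
            rw [card_univ, Fintype.card_prod, Fintype.card_fin, Fintype.card_fin]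
            omega)
  refine ⟨a, fun i j => ha _ ?_⟩
  rw [mem_image]
  exact ⟨(i, j), mem_univ _, rfl⟩

private theorem pairs (w : Fin 4 → ℕ) (T : ℕ) (G : Set ℕ) (a1 : w 0 < w 1) (a2 : w 1 < w 2)
    (a3 : w 2 < w 3) (a4 : w 3 - w 0 ≤ T) (b1 : w 1 - w 0 ∉ G) (b2 : w 2 - w 0 ∉ G)
    (b3 : w 3 - w 0 ∉ G) (b4 : w 2 - w 1 ∉ G) (b5 : w 3 - w 1 ∉ G) (b6 : w 3 - w 2 ∉ G)
    (i i' : Fin 4) (h : w i < w i') : w i' - w i ≤ T ∧ w i' - w i ∉ G := by
  have h4 : ∀ i : Fin 4, i = 0 ∨ i = 1 ∨ i = 2 ∨ i = 3 := by decide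
  rcases h4 i with rfl | rfl | rfl | rfl <;> rcases h4 i' with rfl | rfl | rfl | rfl <;>
    first
      | (exfalso; omega)
      | exact ⟨by omega, by assumption⟩

theorem four_box (ε : ℝ) (hε : 0 < ε) (s : ℕ) (hs : 1 ≤ s) : ∃ δ : ℝ, 0 < δ ∧ ∃ T₀ : ℕ,
    ∀ T : ℕ, T₀ ≤ T → ∀ G : Set ℕ,
      (((Icc 1 T).filter (fun m => m ∈ G)).card : ℝ) ≤ (1 / 3 - ε) * T →
      δ * (T : ℝ) ^ (4 * s) ≤ ((univ.filter (fun V : Fin 4 → Fin s → Fin (2 * T + 1) =>
        (∀ i j i' j', V i j = V i' j' → i = i' ∧ j = j') ∧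
        (∀ p : ℕ, p.Prime → ∃ a : ℕ, ∀ i j, ¬ p ∣ a + 2 * (V i j : ℕ)) ∧
        ∀ i j i' j', i ≠ i' → (V i j : ℕ) < V i' j' →
          ((V i' j' : ℕ) - V i j ≤ T ∧ (V i' j' : ℕ) - V i j ∉ G))).card : ℝ) := by
  obtain ⟨c, hc, T₁, hT₁⟩ := four_points ε hε
  obtain ⟨L, hL⟩ : ∃ L, L = 3 * (4 * s).factorial := ⟨_, rfl⟩
  have hL0 : 0 < L := by rw [hL]; positivity
  have hLr : (0 : ℝ) < L := by exact_mod_cast hL0
  obtain ⟨c', hc'⟩ : ∃ c', c' = c / (81 * (L : ℝ) ^ 4) := ⟨_, rfl⟩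
  have hc'0 : 0 < c' := by rw [hc']; positivity
  obtain ⟨κ, hκ⟩ : ∃ κ, κ = c' ^ (s ^ 4) := ⟨_, rfl⟩
  have hκ0 : 0 < κ := by rw [hκ]; positivity
  obtain ⟨T₂, hT₂⟩ := exists_nat_gt (2 * ((4 : ℝ) * s) ^ 2 / κ)
  refine ⟨κ / 2, by positivity, T₁ + T₂ + 1, fun T hT G hG => ?_⟩
  have hT0 : (0 : ℝ) < T := by
    have : 0 < T := by omega
    exact_mod_cast this
  -- the relation without the residues
  obtain ⟨R', hR'⟩ : ∃ R' : (Fin 4 → Fin (2 * T + 1)) → Prop, R' = fun v =>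
      (v 0 : ℕ) < v 1 ∧ (v 1 : ℕ) < v 2 ∧ (v 2 : ℕ) < v 3 ∧ (v 3 : ℕ) - v 0 ≤ T ∧
      ((v 1 : ℕ) - v 0) % 3 = 1 ∧ ((v 2 : ℕ) - v 0) % 3 = 1 ∧ ((v 3 : ℕ) - v 0) % 3 = 0 ∧
      (v 1 : ℕ) - v 0 ∉ G ∧ (v 2 : ℕ) - v 0 ∉ G ∧ (v 3 : ℕ) - v 0 ∉ G ∧
      (v 2 : ℕ) - v 1 ∉ G ∧ (v 3 : ℕ) - v 1 ∉ G ∧ (v 3 : ℕ) - v 2 ∉ G := ⟨_, rfl⟩
  have h4 := hT₁ T (by omega) G hG
  have h5 : c * (T : ℝ) ^ 4 ≤ ((univ.filter R').card : ℝ) := by
    have h6 : (range (T + 1) ×ˢ ((range (T + 1) ×ˢ range (T + 1) ×ˢ range (T + 1)).filter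
        (fun q : ℕ × ℕ × ℕ => 0 < q.1 ∧ q.1 < q.2.1 ∧ q.2.1 < q.2.2 ∧
          q.1 % 3 = 1 ∧ q.2.1 % 3 = 1 ∧ q.2.2 % 3 = 0 ∧
          q.1 ∉ G ∧ q.2.1 ∉ G ∧ q.2.2 ∉ G ∧ q.2.1 - q.1 ∉ G ∧ q.2.2 - q.1 ∉ G ∧
            q.2.2 - q.2.1 ∉ G))) ⊆ (univ.filter R').image (fun v =>
          ((v 0 : ℕ), (v 1 : ℕ) - v 0, (v 2 : ℕ) - v 0, (v 3 : ℕ) - v 0)) := by
      rintro ⟨z, x, y, n⟩ hq
      rw [mem_product, mem_filter, mem_product, mem_product, mem_range, mem_range, mem_range,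
        mem_range] at hq
      obtain ⟨hz, ⟨hx, hy, hn⟩, h1, h2, h3, h4, h5, h6, h7, h8, h9, h10, h11, h12⟩ := hq
      simp only at hz hx hy hn h1 h2 h3 h4 h5 h6 h7 h8 h9 h10 h11 h12
      rw [mem_image]
      refine ⟨![⟨z, by omega⟩, ⟨z + x, by omega⟩, ⟨z + y, by omega⟩, ⟨z + n, by omega⟩], ?_, ?_⟩
      · rw [mem_filter, hR']
        refine ⟨mem_univ _, ?_⟩
        change z < z + x ∧ z + x < z + y ∧ z + y < z + n ∧ z + n - z ≤ T ∧ (z + x - z) % 3 = 1 ∧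
          (z + y - z) % 3 = 1 ∧ (z + n - z) % 3 = 0 ∧ z + x - z ∉ G ∧ z + y - z ∉ G ∧
          z + n - z ∉ G ∧ z + y - (z + x) ∉ G ∧ z + n - (z + x) ∉ G ∧ z + n - (z + y) ∉ G
        rw [Nat.add_sub_cancel_left, Nat.add_sub_cancel_left, Nat.add_sub_cancel_left,
          Nat.add_sub_add_left, Nat.add_sub_add_left, Nat.add_sub_add_left]
        exact ⟨by omega, by omega, by omega, by omega, h4, h5, h6, h7, h8, h9, h10, h11, h12⟩
      · change (z, z + x - z, z + y - z, z + n - z) = _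
        rw [Nat.add_sub_cancel_left, Nat.add_sub_cancel_left, Nat.add_sub_cancel_left]
    have h7 := (card_le_card h6).trans card_image_le
    rw [card_product, card_range] at h7
    have h8 : ((T : ℝ) + 1) * (((range (T + 1) ×ˢ range (T + 1) ×ˢ range (T + 1)).filter
        (fun q : ℕ × ℕ × ℕ => 0 < q.1 ∧ q.1 < q.2.1 ∧ q.2.1 < q.2.2 ∧
          q.1 % 3 = 1 ∧ q.2.1 % 3 = 1 ∧ q.2.2 % 3 = 0 ∧
          q.1 ∉ G ∧ q.2.1 ∉ G ∧ q.2.2 ∉ G ∧ q.2.1 - q.1 ∉ G ∧ q.2.2 - q.1 ∉ G ∧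
            q.2.2 - q.2.1 ∉ G)).card : ℝ) ≤ ((univ.filter R').card : ℝ) := by exact_mod_cast h7
    refine le_trans ?_ h8
    refine le_trans ?_ (mul_le_mul_of_nonneg_left h4 (by positivity))
    have h9 : c * (T : ℝ) ^ 4 = T * (c * (T : ℝ) ^ 3) := by ring
    rw [h9]
    exact mul_le_mul_of_nonneg_right (by linarith) (by positivity)
  -- the residues
  obtain ⟨ρ, -, hρ⟩ := exists_le_card_fiber_of_nsmul_le_card_of_maps_to
    (s := univ.filter R') (t := (univ : Finset (Fin 4 → Fin L)))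
    (f := fun v i => (⟨(v i : ℕ) % L, Nat.mod_lt _ hL0⟩ : Fin L))
    (b := c * (T : ℝ) ^ 4 / (L : ℝ) ^ 4) (fun _ _ => mem_univ _)
    ⟨fun _ => ⟨0, hL0⟩, mem_univ _⟩ (by
      rw [card_univ, Fintype.card_fun, Fintype.card_fin, Fintype.card_fin, nsmul_eq_mul,
        Nat.cast_pow, mul_div_cancel₀ _ (by positivity)]
      exact h5)
  rw [filter_filter] at hρ
  obtain ⟨R, hR⟩ : ∃ R : (Fin 4 → Fin (2 * T + 1)) → Prop, R = fun v =>
      R' v ∧ (fun i => (⟨(v i : ℕ) % L, Nat.mod_lt _ hL0⟩ : Fin L)) = ρ := ⟨_, rfl⟩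
  have hX : (Fintype.card (Fin (2 * T + 1)) : ℝ) = 2 * T + 1 := by
    rw [Fintype.card_fin]
    push_cast
    ring
  have h6 := box_count 4 s R c' hc'0.le (by
    rw [hR]
    refine le_trans ?_ (hρ.trans (card_imp fun v hv => hv))
    rw [hX, hc']
    have h7 : (2 * (T : ℝ) + 1) ^ 4 ≤ (3 * (T : ℝ)) ^ 4 := by
      have h8 : (1 : ℝ) ≤ T := by
        have : 1 ≤ T := by omega
        exact_mod_cast this
      exact pow_le_pow_left₀ (by positivity) (by linarith) 4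
    have h8 := mul_le_mul_of_nonneg_left h7 (show (0 : ℝ) ≤ c / (81 * (L : ℝ) ^ 4) by positivity)
    refine h8.trans (le_of_eq ?_)
    field_simp
    ring)
  rw [← hκ] at h6
  have h7 := inj_part 4 s (2 * T + 1) (fun V => ∀ φ : Fin 4 → Fin s, R fun i => V i (φ i)) κ
    (by omega) (by
      have h8 : (T₂ : ℝ) ≤ ((2 * T + 1 : ℕ) : ℝ) := by
        have : T₂ ≤ 2 * T + 1 := by omega
        exact_mod_cast this
      rw [div_lt_iff₀ hκ0] at hT₂
      have h9 := mul_le_mul_of_nonneg_left h8 hκ0.le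
      have h10 : (((4 : ℕ) : ℝ) * s) ^ 2 = (4 * (s : ℝ)) ^ 2 := by norm_num
      rw [h10]
      linarith) (by
      rw [Fintype.card_fin] at h6
      exact h6.trans (card_imp fun v hv => hv))
  have h8 : κ / 2 * (T : ℝ) ^ (4 * s) ≤ κ / 2 * (((2 * T + 1 : ℕ) : ℝ)) ^ (4 * s) := by
    refine mul_le_mul_of_nonneg_left (pow_le_pow_left₀ hT0.le ?_ _) (by positivity)
    have : T ≤ 2 * T + 1 := by omega
    exact_mod_cast this
  refine h8.trans (h7.trans (card_imp ?_))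
  intro V hV
  obtain ⟨hV1, hV2⟩ := hV
  refine ⟨hV1, ?_, ?_⟩
  · -- admissible
    have hres : ∀ i j, (V i j : ℕ) % L = (ρ i : ℕ) := by
      intro i j
      have h1 := hV2 (fun _ => j)
      rw [hR] at h1
      have h2 := congrFun h1.2 i
      exact congrArg Fin.val h2
    have h0 := hV2 (fun _ => ⟨0, hs⟩)
    rw [hR, hR'] at h0
    obtain ⟨⟨a1, a2, a3, a4, a5, a6, a7, -⟩, -⟩ := h0
    have a1' : (V 0 ⟨0, hs⟩ : ℕ) < V 1 ⟨0, hs⟩ := a1
    have a2' : (V 1 ⟨0, hs⟩ : ℕ) < V 2 ⟨0, hs⟩ := a2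
    have a3' : (V 2 ⟨0, hs⟩ : ℕ) < V 3 ⟨0, hs⟩ := a3
    have a5' : ((V 1 ⟨0, hs⟩ : ℕ) - V 0 ⟨0, hs⟩) % 3 = 1 := a5
    have a6' : ((V 2 ⟨0, hs⟩ : ℕ) - V 0 ⟨0, hs⟩) % 3 = 1 := a6
    have a7' : ((V 3 ⟨0, hs⟩ : ℕ) - V 0 ⟨0, hs⟩) % 3 = 0 := a7
    have e0 := hres 0 ⟨0, hs⟩
    have e1 := hres 1 ⟨0, hs⟩
    have e2 := hres 2 ⟨0, hs⟩
    have e3 := hres 3 ⟨0, hs⟩
    have hd : 3 ∣ L := by rw [hL]; exact Dvd.intro _ rfl
    have m0 : (ρ 0 : ℕ) % 3 = (V 0 ⟨0, hs⟩ : ℕ) % 3 := by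
      rw [← e0, Nat.mod_mod_of_dvd _ hd]
    have m1 : (ρ 1 : ℕ) % 3 = (V 1 ⟨0, hs⟩ : ℕ) % 3 := by
      rw [← e1, Nat.mod_mod_of_dvd _ hd]
    have m2 : (ρ 2 : ℕ) % 3 = (V 2 ⟨0, hs⟩ : ℕ) % 3 := by
      rw [← e2, Nat.mod_mod_of_dvd _ hd]
    have m3 : (ρ 3 : ℕ) % 3 = (V 3 ⟨0, hs⟩ : ℕ) % 3 := by
      rw [← e3, Nat.mod_mod_of_dvd _ hd]
    intro p hp
    refine adm_box s (fun i j => (V i j : ℕ)) (fun i => (ρ i : ℕ)) ?_ ?_ ?_ p hp
    · intro i j
      rw [← hL]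
      exact hres i j
    · rw [m3, m0]
      omega
    · rw [m2, m1]
      omega
  · intro i j i' j' hii hlt
    have h1 := hV2 (fun l => if l = i then j else j')
    rw [hR, hR'] at h1
    obtain ⟨⟨a1, a2, a3, a4, -, -, -, b1, b2, b3, b4, b5, b6⟩, -⟩ := h1
    have h2 := pairs (fun l => (V l (if l = i then j else j') : ℕ)) T G a1 a2 a3 a4 b1 b2 b3 b4
      b5 b6 i i'
    simp only [if_true, if_neg (Ne.symm hii)] at h2
    exact h2 hlt

end Pool.Agent.H21.GC
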