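import Pool.Agent.H21.GC.Cheb

/-!
# Part C of Theorem G (MP_8923e7_nt): tuples, one-sided

If the popular `k`-tuples (those in `G`) have density `≤ α^k - ε` in `[1,T]^k`, at least half of the `B`-tuples
`z ∈ [0,T]^B` are such that every set `E` of `(α - η) B` indices contains a bad `(k+1)`-tuple: an index `j₀` and
different indices `j i` with `z j₀ < z (j i)` and `(z (j i) - z j₀)_i ∉ G`.

PROOF. For an index `a` let `P_a` be the number of `k`-tuples `j` of different indices `≠ a` with `z a < z (j i)` and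
`(z (j i) - z a)_i ∈ G`. For fixed `z a` the mean of `P_a` over the other coordinates is `≤ (α^k - ε) B^k` (the number of the
`n ∈ G ∩ [1, T - z a]^k` is at most `#(G ∩ [1,T]^k)`) and the mean of `P_a²` is `≤ (mean)² + 4 k² B^(2k-1)`, so the number of
exceptional `a` (with `P_a ≥ (α^k - ε/2) B^k`) has mean `≤ C`. If `z` is not as claimed there is a clique `E`; let `a` be
the smallest (by `z`) non-exceptional element of `E`: the elements of `E` below it are exceptional.
-/

set_option autoImplicit false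

open Finset

open scoped Classical

namespace Pool.Agent.H21.GC

private theorem pow_diff (a b : ℝ) (hb : 0 ≤ b) (hab : b ≤ a) (ha : a ≤ 1) (k : ℕ) :
    a ^ k - b ^ k ≤ k * (a - b) := by
  induction k with
  | zero => simp
  | succ k ih =>
    have h1 : a ^ (k + 1) - b ^ (k + 1) = a * (a ^ k - b ^ k) + (a - b) * b ^ k := by ring
    have h0 : 0 ≤ a ^ k - b ^ k := sub_nonneg.2 (pow_le_pow_left₀ hb hab k)
    have h2 : a * (a ^ k - b ^ k) ≤ 1 * (a ^ k - b ^ k) := mul_le_mul_of_nonneg_right ha h0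
    have h3 : (a - b) * b ^ k ≤ (a - b) * 1 :=
      mul_le_mul_of_nonneg_left (pow_le_one₀ hb (hab.trans ha)) (sub_nonneg.2 hab)
    have h4 : ((k + 1 : ℕ) : ℝ) * (a - b) = k * (a - b) + (a - b) := by
      push_cast
      ring
    rw [h1, h4]
    linarith

/-- the number of the `G`-tuples above `a` -/
private noncomputable def PP {k B : ℕ} (G : Set (Fin k → ℕ)) (z : Fin B → ℕ) (a : Fin B) : ℕ :=
  ((univ.filter fun j : Fin k → Fin B => Function.Injective j ∧ ∀ i, j i ≠ a).filter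
    fun j => (∀ i, z a < z (j i)) ∧ (fun i => z (j i) - z a) ∈ G).card

private theorem clique {k B : ℕ} (G : Set (Fin k → ℕ)) (z : Fin B → ℕ)
    (hz : Function.Injective z) (E exc : Finset (Fin B)) (hE : exc.card < E.card)
    (hcl : ∀ j₀ ∈ E, ∀ j : Fin k → Fin B, (∀ i, j i ∈ E) → Function.Injective j →
      (∀ i, z j₀ < z (j i)) → (fun i => z (j i) - z j₀) ∈ G) :
    ∃ a ∈ E, a ∉ exc ∧ (E.card - exc.card - k) ^ k ≤ PP G z a := by
  have hne : (E \ exc).Nonempty := by
    rw [← card_pos]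
    have h1 := le_card_sdiff exc E
    omega
  obtain ⟨a, ha, hmin⟩ := exists_min_image (E \ exc) z hne
  rw [mem_sdiff] at ha
  refine ⟨a, ha.1, ha.2, ?_⟩
  obtain ⟨F, hF⟩ : ∃ F, F = E.filter (fun e => z a < z e) := ⟨_, rfl⟩
  have h1 : E ⊆ exc ∪ ({a} ∪ F) := by
    intro e he
    rw [mem_union, mem_union, mem_singleton, hF, mem_filter]
    rcases lt_trichotomy (z e) (z a) with h | h | h
    · left
      by_contra hne
      exact absurd (hmin e (mem_sdiff.2 ⟨he, hne⟩)) (not_le.2 h)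
    · exact Or.inr (Or.inl (hz h))
    · exact Or.inr (Or.inr ⟨he, h⟩)
  have h2 := card_le_card h1
  have h3 := card_union_le exc ({a} ∪ F)
  have h4 := card_union_le {a} F
  rw [card_singleton] at h4
  have h5 : E.card - exc.card - k ≤ F.card + 1 - k := by omega
  refine (Nat.pow_le_pow_left h5 k).trans ((Nat.pow_sub_le_descFactorial F.card k).trans ?_)
  have h6 : Fintype.card (Fin k ↪ F) = F.card.descFactorial k := by
    rw [Fintype.card_embedding_eq, Fintype.card_fin, Fintype.card_coe]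
  rw [← h6, ← card_univ]
  unfold PP
  refine card_le_card_of_injOn (fun e i => (e i : Fin B)) ?_ ?_
  · intro e _
    have hm : ∀ i, (e i : Fin B) ∈ E ∧ z a < z (e i) := by
      intro i
      have h7 : ∀ x ∈ F, x ∈ E ∧ z a < z x := by
        intro x hx
        rw [hF, mem_filter] at hx
        exact hx
      exact h7 _ (e i).2
    have hinj : Function.Injective (fun i => (e i : Fin B)) :=
      Subtype.val_injective.comp e.injective
    rw [mem_coe, mem_filter, mem_filter]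
    refine ⟨⟨mem_univ _, hinj, fun i h => ?_⟩, fun i => (hm i).2,
      hcl a ha.1 _ (fun i => (hm i).1) hinj fun i => (hm i).2⟩
    have h7 := (hm i).2
    have h8 : (e i : Fin B) = a := h
    rw [h8] at h7
    exact lt_irrefl _ h7
  · intro e _ e' _ h
    ext i
    exact congrArg Fin.val (congrFun h i)

private theorem exc_count {k B T : ℕ} (hB : 0 < B) (G : Set (Fin k → ℕ)) (m ε : ℝ)
    (hm : 0 ≤ m) (hε : 0 < ε)
    (hG : (((Fintype.piFinset fun _ : Fin k => Icc 1 T).filter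
        (fun n => n ∈ G)).card : ℝ) ≤ m * (T : ℝ) ^ k) (a : Fin B) :
    ((univ.filter fun z : Fin B → Fin (T + 1) => (m + ε / 2) * (B : ℝ) ^ k ≤
      (PP G (fun b => (z b : ℕ)) a : ℝ)).card : ℝ) ≤
      16 * (k : ℝ) ^ 2 / (ε ^ 2 * B) * ((T : ℝ) + 1) ^ B := by
  obtain ⟨J, hJ⟩ : ∃ J, J = (univ.filter fun j : Fin k → Fin B => Function.Injective j ∧
    ∀ i, j i ≠ a) := ⟨_, rfl⟩
  obtain ⟨R, hR⟩ : ∃ R : Fin (T + 1) → (Fin k → Fin (T + 1)) → Prop,
    R = fun (u : Fin (T + 1)) (y : Fin k → Fin (T + 1)) =>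
      (∀ i, (u : ℕ) < (y i : ℕ)) ∧ (fun i => (y i : ℕ) - (u : ℕ)) ∈ G := ⟨_, rfl⟩
  have hcheb : ∀ u, ((univ.filter fun z : Fin B → Fin (T + 1) => (m + ε / 2) * (B : ℝ) ^ k ≤
      ((J.filter fun j => R u (fun i => z (j i))).card : ℝ)).card : ℝ) ≤
      16 * (k : ℝ) ^ 2 / (ε ^ 2 * B) * ((T : ℝ) + 1) ^ B := by
    intro u
    have h1 := cheb hB J (fun j hj => by
      rw [hJ, mem_filter] at hj
      exact hj.2.1) (R u) m ε hε (by
      have h2 : (univ.filter (R u)).card ≤ ((Fintype.piFinset fun _ : Fin k => Icc 1 T).filter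
          (fun n => n ∈ G)).card := by
        refine card_le_card_of_injOn (fun y i => (y i : ℕ) - u) ?_ ?_
        · intro y hy
          rw [mem_coe, mem_filter, hR] at hy
          rw [mem_coe, mem_filter, Fintype.mem_piFinset]
          refine ⟨fun i => ?_, hy.2.2⟩
          rw [mem_Icc]
          have h3 := hy.2.1 i
          have h4 := (y i).2
          change 1 ≤ (y i : ℕ) - u ∧ (y i : ℕ) - u ≤ T
          omega
        · intro y hy y' hy' h
          rw [mem_coe, mem_filter, hR] at hy hy'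
          funext i
          have h3 := hy.2.1 i
          have h4 := hy'.2.1 i
          have h5 : (y i : ℕ) - u = (y' i : ℕ) - u := congrFun h i
          exact Fin.ext (by omega)
      have h3 : ((univ.filter (R u)).card : ℝ) ≤ m * (T : ℝ) ^ k :=
        (Nat.cast_le.2 h2).trans hG
      refine h3.trans (mul_le_mul_of_nonneg_left (pow_le_pow_left₀ (Nat.cast_nonneg _) ?_ k) hm)
      rw [Fintype.card_fin]
      push_cast
      linarith)
    rw [Fintype.card_fin] at h1
    push_cast at h1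
    exact h1
  obtain ⟨Z, hZ⟩ : ∃ Z, Z = (univ.filter fun z : Fin B → Fin (T + 1) =>
      (m + ε / 2) * (B : ℝ) ^ k ≤ (PP G (fun b => (z b : ℕ)) a : ℝ)) := ⟨_, rfl⟩
  rw [← hZ]
  have h1 : ((univ : Finset (Fin (T + 1))) ×ˢ Z).card ≤
      ((univ : Finset (Fin (T + 1))).sigma fun u => (univ.filter fun z : Fin B → Fin (T + 1) =>
        (m + ε / 2) * (B : ℝ) ^ k ≤
          ((J.filter fun j => R u (fun i => z (j i))).card : ℝ))).card := by
    refine card_le_card_of_injOn (fun p => ⟨p.2 a, Function.update p.2 a p.1⟩) ?_ ?_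
    · rintro ⟨x, z⟩ hz
      rw [mem_coe, mem_product, hZ, mem_filter] at hz
      rw [mem_coe, mem_sigma, mem_filter]
      refine ⟨mem_univ _, mem_univ _, ?_⟩
      refine hz.2.2.trans (le_of_eq ?_)
      congr 1
      unfold PP
      rw [← hJ]
      congr 1
      refine filter_congr fun j hj => ?_
      rw [hJ, mem_filter] at hj
      rw [hR]
      have h2 : ∀ i, Function.update z a x (j i) = z (j i) :=
        fun i => Function.update_of_ne (hj.2.2 i) _ _
      simp only [h2]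
    · rintro ⟨x, z⟩ _ ⟨x', z'⟩ _ h
      simp only [Sigma.mk.injEq, heq_eq_eq] at h
      obtain ⟨h2, h3⟩ := h
      have h4 : x = x' := by
        have := congrFun h3 a
        rwa [Function.update_self, Function.update_self] at this
      have h5 : z = z' := by
        funext b
        by_cases hb : b = a
        · rw [hb]
          exact h2
        · have := congrFun h3 b
          rwa [Function.update_of_ne hb, Function.update_of_ne hb] at this
      rw [h4, h5]
  rw [card_product, card_univ, Fintype.card_fin, card_sigma] at h1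
  have h2 : ((T : ℝ) + 1) * (Z.card : ℝ) ≤ ∑ u : Fin (T + 1),
      ((univ.filter fun z : Fin B → Fin (T + 1) => (m + ε / 2) * (B : ℝ) ^ k ≤
      ((J.filter fun j => R u (fun i => z (j i))).card : ℝ)).card : ℝ) := by
    exact_mod_cast h1
  have h3 := h2.trans (sum_le_sum fun u _ => hcheb u)
  rw [sum_const, card_univ, Fintype.card_fin, nsmul_eq_mul] at h3
  push_cast at h3
  exact le_of_mul_le_mul_left h3 (by positivity)

theorem k_tup (k : ℕ) (hk : 1 ≤ k) (α : ℝ) (hα : 0 < α) (hα1 : α ≤ 1) (ε : ℝ) (hε : 0 < ε) :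
    ∃ η : ℝ, 0 < η ∧ ∃ B₀ : ℕ, ∀ B : ℕ, B₀ ≤ B → ∃ T₀ : ℕ, ∀ T : ℕ, T₀ ≤ T →
      ∀ G : Set (Fin k → ℕ), (((Fintype.piFinset fun _ : Fin k => Icc 1 T).filter
        (fun n => n ∈ G)).card : ℝ) ≤ (α ^ k - ε) * (T : ℝ) ^ k →
      ((T : ℝ) + 1) ^ B ≤ 2 * ((univ.filter (fun z : Fin B → Fin (T + 1) =>
        Function.Injective z ∧ ∀ E : Finset (Fin B), (α - η) * B ≤ E.card →
          ∃ j₀ ∈ E, ∃ j : Fin k → Fin B, (∀ i, j i ∈ E) ∧ Function.Injective j ∧
            (∀ i, (z j₀ : ℕ) < z (j i)) ∧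
            (fun i => (z (j i) : ℕ) - z j₀) ∉ G)).card : ℝ) := by
  have hkr : (1 : ℝ) ≤ k := by exact_mod_cast hk
  obtain ⟨η, hη⟩ : ∃ η, η = ε / (8 * k) := ⟨_, rfl⟩
  have hη0 : 0 < η := by rw [hη]; positivity
  have hηk : k * η = ε / 8 := by
    rw [hη]
    field_simp
  have hηε : 8 * η ≤ ε := by nlinarith
  obtain ⟨B₁, hB₁⟩ := exists_nat_gt ((k : ℝ) / η)
  obtain ⟨B₂, hB₂⟩ := exists_nat_gt (64 * (k : ℝ) ^ 2 / (ε ^ 2 * η))
  refine ⟨η, hη0, B₁ + B₂ + 1, fun B hB => ⟨4 * B ^ 2 + 1, fun T hT G hG => ?_⟩⟩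
  have hB0 : 0 < B := by omega
  have hBr : (0 : ℝ) < B := by exact_mod_cast hB0
  have hBk : (k : ℝ) ≤ η * B := by
    have h1 : (B₁ : ℝ) ≤ B := by
      have : B₁ ≤ B := by omega
      exact_mod_cast this
    rw [div_lt_iff₀ hη0] at hB₁
    nlinarith
  have hBk2 : 64 * (k : ℝ) ^ 2 ≤ ε ^ 2 * η * B := by
    have h1 : (B₂ : ℝ) ≤ B := by
      have : B₂ ≤ B := by omega
      exact_mod_cast this
    rw [div_lt_iff₀ (by positivity)] at hB₂
    have h2 : (B₂ : ℝ) * (ε ^ 2 * η) ≤ B * (ε ^ 2 * η) :=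
      mul_le_mul_of_nonneg_right h1 (by positivity)
    linarith
  have hTr : (0 : ℝ) < T := by
    have : 0 < T := by omega
    exact_mod_cast this
  have hm : 0 ≤ α ^ k - ε := by
    by_contra h
    rw [not_le] at h
    have h1 : (α ^ k - ε) * (T : ℝ) ^ k < 0 := mul_neg_of_neg_of_pos h (by positivity)
    have h2 : (0 : ℝ) ≤ (((Fintype.piFinset fun _ : Fin k => Icc 1 T).filter
        (fun n => n ∈ G)).card : ℝ) := Nat.cast_nonneg _
    linarith
  have hεα : ε ≤ α := by
    have h1 : α ^ k ≤ α ^ 1 := pow_le_pow_of_le_one hα.le hα1 hk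
    rw [pow_one] at h1
    linarith
  have hN : (0 : ℝ) < ((T : ℝ) + 1) ^ B := by positivity
  -- non-injective tuples
  obtain ⟨A1, hA1⟩ : ∃ A1, A1 = (univ.filter fun z : Fin B → Fin (T + 1) =>
    ¬ Function.Injective z) := ⟨_, rfl⟩
  have hA1c : 4 * (A1.card : ℝ) ≤ ((T : ℝ) + 1) ^ B := by
    have h1 := noninj (Fin B) (T + 1)
    rw [← hA1, Fintype.card_fin] at h1
    have h2 : ((T : ℝ) + 1) * (A1.card : ℝ) ≤ (B : ℝ) ^ 2 * ((T : ℝ) + 1) ^ B := by
      exact_mod_cast h1
    have h3 : 4 * (B : ℝ) ^ 2 ≤ (T : ℝ) + 1 := by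
      have : 4 * B ^ 2 ≤ T + 1 := by omega
      exact_mod_cast this
    have h4 : 4 * (B : ℝ) ^ 2 * ((T : ℝ) + 1) ^ B ≤ ((T : ℝ) + 1) * ((T : ℝ) + 1) ^ B :=
      mul_le_mul_of_nonneg_right h3 hN.le
    have h5 : ((T : ℝ) + 1) * (4 * (A1.card : ℝ)) ≤ ((T : ℝ) + 1) * ((T : ℝ) + 1) ^ B := by
      linarith
    exact le_of_mul_le_mul_left h5 (by positivity)
  -- too many exceptional indices
  obtain ⟨exc, hexc⟩ : ∃ exc : (Fin B → Fin (T + 1)) → Finset (Fin B), exc = fun z =>
    univ.filter fun a => (α ^ k - ε + ε / 2) * (B : ℝ) ^ k ≤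
      (PP G (fun b => (z b : ℕ)) a : ℝ) := ⟨_, rfl⟩
  obtain ⟨A2, hA2⟩ : ∃ A2, A2 = (univ.filter fun z : Fin B → Fin (T + 1) =>
    η * B < ((exc z).card : ℝ)) := ⟨_, rfl⟩
  have hA2c : 4 * (A2.card : ℝ) ≤ ((T : ℝ) + 1) ^ B := by
    have h1 : (A2.card : ℝ) * (η * B) ≤ ∑ z : Fin B → Fin (T + 1), ((exc z).card : ℝ) := by
      rw [← nsmul_eq_mul, ← sum_const]
      refine (sum_le_sum fun z hz => ?_).trans (sum_le_sum_of_subset_of_nonneg (subset_univ A2)
        fun z _ _ => Nat.cast_nonneg _)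
      rw [hA2, mem_filter] at hz
      exact hz.2.le
    have h2 : ∑ z : Fin B → Fin (T + 1), ((exc z).card : ℝ) =
        ∑ a : Fin B, ((univ.filter fun z : Fin B → Fin (T + 1) =>
          (α ^ k - ε + ε / 2) * (B : ℝ) ^ k ≤ (PP G (fun b => (z b : ℕ)) a : ℝ)).card : ℝ) := by
      rw [hexc]
      beta_reduce
      simp only [← sum_boole]
      rw [sum_comm]
    have h3 : ∑ a : Fin B, ((univ.filter fun z : Fin B → Fin (T + 1) =>
          (α ^ k - ε + ε / 2) * (B : ℝ) ^ k ≤ (PP G (fun b => (z b : ℕ)) a : ℝ)).card : ℝ) ≤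
        ∑ _a : Fin B, 16 * (k : ℝ) ^ 2 / (ε ^ 2 * B) * ((T : ℝ) + 1) ^ B :=
      sum_le_sum fun a _ => exc_count hB0 G (α ^ k - ε) ε hm hε hG a
    rw [sum_const, card_univ, Fintype.card_fin, nsmul_eq_mul] at h3
    have h4 : (B : ℝ) * (16 * (k : ℝ) ^ 2 / (ε ^ 2 * B) * ((T : ℝ) + 1) ^ B) =
        16 * (k : ℝ) ^ 2 / ε ^ 2 * ((T : ℝ) + 1) ^ B := by
      field_simp
    rw [h4] at h3
    have h5 : (A2.card : ℝ) * (η * B) ≤ 16 * (k : ℝ) ^ 2 / ε ^ 2 * ((T : ℝ) + 1) ^ B := by
      rw [h2] at h1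
      exact h1.trans h3
    have h6 : 16 * (k : ℝ) ^ 2 / ε ^ 2 ≤ η * B / 4 := by
      rw [div_le_iff₀ (by positivity)]
      linarith
    have h7 : 16 * (k : ℝ) ^ 2 / ε ^ 2 * ((T : ℝ) + 1) ^ B ≤ η * B / 4 * ((T : ℝ) + 1) ^ B :=
      mul_le_mul_of_nonneg_right h6 hN.le
    have h8 : η * B * (4 * (A2.card : ℝ)) ≤ η * B * ((T : ℝ) + 1) ^ B := by linarith
    exact le_of_mul_le_mul_left h8 (by positivity)
  -- the others are good
  have hfin : (univ : Finset (Fin B → Fin (T + 1))) ⊆ (univ.filter (fun z : Fin B → Fin (T + 1) =>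
        Function.Injective z ∧ ∀ E : Finset (Fin B), (α - η) * B ≤ E.card →
          ∃ j₀ ∈ E, ∃ j : Fin k → Fin B, (∀ i, j i ∈ E) ∧ Function.Injective j ∧
            (∀ i, (z j₀ : ℕ) < z (j i)) ∧
            (fun i => (z (j i) : ℕ) - z j₀) ∉ G)) ∪ (A1 ∪ A2) := by
    intro z _
    rw [mem_union, mem_union, mem_filter]
    by_cases hz1 : Function.Injective z
    swap
    · right
      left
      rw [hA1, mem_filter]
      exact ⟨mem_univ _, hz1⟩
    by_cases hz2 : η * B < ((exc z).card : ℝ)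
    · right
      right
      rw [hA2, mem_filter]
      exact ⟨mem_univ _, hz2⟩
    rw [not_lt] at hz2
    left
    refine ⟨mem_univ _, hz1, fun E hE => ?_⟩
    by_contra hcon
    have hαη : 0 ≤ α - 3 * η := by linarith
    have hE2 : (exc z).card < E.card := by
      have h1 : ((exc z).card : ℝ) < E.card := by
        have h2 : η * B < (α - η) * B := mul_lt_mul_of_pos_right (by linarith) hBr
        linarith
      exact_mod_cast h1
    obtain ⟨a, haE, ha, hP⟩ := clique G (fun b => (z b : ℕ)) (Fin.val_injective.comp hz1) E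
      (exc z) hE2 (by
        intro j₀ hj₀ j hj hji hlt
        by_contra h
        exact hcon ⟨j₀, hj₀, j, hj, hji, hlt, h⟩)
    have h1 : (PP G (fun b => (z b : ℕ)) a : ℝ) < (α ^ k - ε + ε / 2) * (B : ℝ) ^ k := by
      rw [hexc, mem_filter, not_and, not_le] at ha
      exact ha (mem_univ _)
    have h2 : (α - 3 * η) * B ≤ ((E.card - (exc z).card - k : ℕ) : ℝ) := by
      have h3 : (E.card : ℝ) ≤ ((E.card - (exc z).card - k : ℕ) : ℝ) + (exc z).card + k := by
        have h4 : E.card ≤ (E.card - (exc z).card - k) + (exc z).card + k := by omega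
        exact_mod_cast h4
      have h4 : (α - η) * B = (α - 3 * η) * B + 2 * (η * B) := by ring
      rw [h4] at hE
      linarith
    have h3 : ((α - 3 * η) * B) ^ k ≤ (PP G (fun b => (z b : ℕ)) a : ℝ) := by
      refine (pow_le_pow_left₀ (by positivity) h2 k).trans ?_
      exact_mod_cast hP
    have h4 := pow_diff α (α - 3 * η) hαη (by linarith) hα1 k
    have h5 : ((α - 3 * η)) ^ k * (B : ℝ) ^ k < (α ^ k - ε + ε / 2) * (B : ℝ) ^ k := by
      rw [← mul_pow]
      exact lt_of_le_of_lt h3 h1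
    have h6 := lt_of_mul_lt_mul_right h5 (by positivity)
    have h7 : (k : ℝ) * (α - (α - 3 * η)) = 3 * (k * η) := by ring
    rw [h7, hηk] at h4
    linarith
  have h1 := card_le_card hfin
  have h2 := card_union_le (univ.filter (fun z : Fin B → Fin (T + 1) =>
        Function.Injective z ∧ ∀ E : Finset (Fin B), (α - η) * B ≤ E.card →
          ∃ j₀ ∈ E, ∃ j : Fin k → Fin B, (∀ i, j i ∈ E) ∧ Function.Injective j ∧
            (∀ i, (z j₀ : ℕ) < z (j i)) ∧
            (fun i => (z (j i) : ℕ) - z j₀) ∉ G)) (A1 ∪ A2)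
  have h3 := card_union_le A1 A2
  rw [card_univ, Fintype.card_fun, Fintype.card_fin, Fintype.card_fin] at h1
  have h4 : (T + 1) ^ B ≤ (univ.filter (fun z : Fin B → Fin (T + 1) =>
        Function.Injective z ∧ ∀ E : Finset (Fin B), (α - η) * B ≤ E.card →
          ∃ j₀ ∈ E, ∃ j : Fin k → Fin B, (∀ i, j i ∈ E) ∧ Function.Injective j ∧
            (∀ i, (z j₀ : ℕ) < z (j i)) ∧
            (fun i => (z (j i) : ℕ) - z j₀) ∉ G)).card + (A1.card + A2.card) := by omega
  have h5 : ((T : ℝ) + 1) ^ B ≤ ((univ.filter (fun z : Fin B → Fin (T + 1) =>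
        Function.Injective z ∧ ∀ E : Finset (Fin B), (α - η) * B ≤ E.card →
          ∃ j₀ ∈ E, ∃ j : Fin k → Fin B, (∀ i, j i ∈ E) ∧ Function.Injective j ∧
            (∀ i, (z j₀ : ℕ) < z (j i)) ∧
            (fun i => (z (j i) : ℕ) - z j₀) ∉ G)).card : ℝ) + (A1.card + A2.card) := by
    exact_mod_cast h4
  linarith

end Pool.Agent.H21.GC
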