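import Pool.Agent.H21.GC.BoxCount
import Pool.Agent.H21.GC.KTup

/-!
# Part C of Theorem G (MP_8923e7_nt): boxes for `k`-tuples

If the popular `k`-tuples (those in `G`) have density `≤ α^k - ε` in `[1,T]^k`, a positive proportion of the boxes
`V` of `B` cells of `s` numbers `≤ T` is such that the `Bs` numbers are different and every choice of one number in
each of `(α - η) B` cells contains a bad `(k+1)`-tuple.
-/

set_option autoImplicit false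

open Finset

open scoped Classical

namespace Pool.Agent.H21.GC

theorem k_box (k : ℕ) (hk : 1 ≤ k) (α : ℝ) (hα : 0 < α) (hα1 : α ≤ 1) (ε : ℝ) (hε : 0 < ε) :
    ∃ η : ℝ, 0 < η ∧ ∃ B : ℕ, k + 1 ≤ B ∧ ∀ s : ℕ, 1 ≤ s → ∃ δ : ℝ, 0 < δ ∧ ∃ T₀ : ℕ,
      ∀ T : ℕ, T₀ ≤ T → ∀ G : Set (Fin k → ℕ),
      (((Fintype.piFinset fun _ : Fin k => Icc 1 T).filter
        (fun n => n ∈ G)).card : ℝ) ≤ (α ^ k - ε) * (T : ℝ) ^ k →
      δ * (T : ℝ) ^ (B * s) ≤ ((univ.filter (fun V : Fin B → Fin s → Fin (T + 1) =>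
        (∀ i j i' j', V i j = V i' j' → i = i' ∧ j = j') ∧
        ∀ E : Finset (Fin B), (α - η) * B ≤ E.card → ∀ φ : Fin B → Fin s,
          ∃ j₀ ∈ E, ∃ j : Fin k → Fin B, (∀ i, j i ∈ E) ∧ Function.Injective j ∧
            (∀ i, (V j₀ (φ j₀) : ℕ) < V (j i) (φ (j i))) ∧
            (fun i => (V (j i) (φ (j i)) : ℕ) - V j₀ (φ j₀)) ∉ G)).card : ℝ) := by
  obtain ⟨η, hη, B₀, hB₀⟩ := k_tup k hk α hα hα1 ε hε
  refine ⟨η, hη, B₀ + (k + 1), by omega, fun s hs => ?_⟩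
  obtain ⟨B, hB⟩ : ∃ B, B = B₀ + (k + 1) := ⟨_, rfl⟩
  rw [← hB]
  obtain ⟨T₁, hT₁⟩ := hB₀ B (by omega)
  obtain ⟨κ, hκ⟩ : ∃ κ : ℝ, κ = (1 / 2) ^ (s ^ B) := ⟨_, rfl⟩
  have hκ0 : 0 < κ := by rw [hκ]; positivity
  obtain ⟨T₂, hT₂⟩ := exists_nat_gt (2 * ((B : ℝ) * s) ^ 2 / κ)
  refine ⟨κ / 2, by positivity, T₁ + T₂, fun T hT G hG => ?_⟩
  have h1 := hT₁ T (by omega) G hG
  have h1' : ∀ x : ℝ, ((T : ℝ) + 1) ^ B ≤ 2 * x → 1 / 2 * ((T : ℝ) + 1) ^ B ≤ x := by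
    intro x hx
    linarith
  have h1 := h1' _ h1
  have hcT : (Fintype.card (Fin (T + 1)) : ℝ) = ((T + 1 : ℕ) : ℝ) := by rw [Fintype.card_fin]
  have h2 := box_count B s (fun z : Fin B → Fin (T + 1) =>
    Function.Injective z ∧ ∀ E : Finset (Fin B), (α - η) * B ≤ E.card →
          ∃ j₀ ∈ E, ∃ j : Fin k → Fin B, (∀ i, j i ∈ E) ∧ Function.Injective j ∧
            (∀ i, (z j₀ : ℕ) < z (j i)) ∧
            (fun i => (z (j i) : ℕ) - z j₀) ∉ G) (1 / 2) (by norm_num) (by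
      rw [hcT]
      push_cast
      exact h1.trans (card_imp fun z hz => hz))
  rw [← hκ, hcT] at h2
  have h3 := inj_part B s (T + 1) (fun V => ∀ φ : Fin B → Fin s,
    Function.Injective (fun i => V i (φ i)) ∧ ∀ E : Finset (Fin B), (α - η) * B ≤ E.card →
          ∃ j₀ ∈ E, ∃ j : Fin k → Fin B, (∀ i, j i ∈ E) ∧ Function.Injective j ∧
            (∀ i, (V j₀ (φ j₀) : ℕ) < V (j i) (φ (j i))) ∧
            (fun i => (V (j i) (φ (j i)) : ℕ) - V j₀ (φ j₀)) ∉ G) κ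
    (by omega) (by
      have h8 : (T₂ : ℝ) ≤ ((T + 1 : ℕ) : ℝ) := by
        have : T₂ ≤ T + 1 := by omega
        exact_mod_cast this
      rw [div_lt_iff₀ hκ0] at hT₂
      have h9 := mul_le_mul_of_nonneg_left h8 hκ0.le
      linarith) (h2.trans (card_imp fun V hV => hV))
  have h4 : κ / 2 * (T : ℝ) ^ (B * s) ≤ κ / 2 * (((T + 1 : ℕ) : ℝ)) ^ (B * s) := by
    refine mul_le_mul_of_nonneg_left (pow_le_pow_left₀ (Nat.cast_nonneg _) ?_ _) (by positivity)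
    have : T ≤ T + 1 := by omega
    exact_mod_cast this
  refine h4.trans (h3.trans (card_imp ?_))
  intro V hV
  exact ⟨hV.1, fun E hE φ => (hV.2 φ).2 E hE⟩

end Pool.Agent.H21.GC
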