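import Pool.Agent.H61.GD.Def
import Pool.Agent.H61.GD.Two
import Pool.Agent.H21.GC.Cons

/-!
# Theorem G (MP_8923e7_nt), clause (3): `k` successive gaps

For every `k` there are `κ > 0`, `K`, `Q0` such that for `Q0 ∣ Q` there are `c, lam > 0` and `L0, X0`: for `L0 ≤ L ≤ lam log X` at
least `κ L^k` of the `n ∈ [1,L]^k` are such that `p_(j+i+1) - p_(j+i) = Q n_i` (`i < k`) for at least
`c min(1, L/log X)^K X/(log X)^(k+1)` indices `j` with `p_j ≤ X`.

Proof: `m = 4(k+1)` cells, `e = 1/1000`, so `(13/50 - 2e) m ≥ k+1`; `s` from `main_B`; `κ = 1/(2 (m s)^(k+1))`. If there are fewer than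
`κ L^k` popular patterns, a positive proportion of the families of `m s` sites contains no increasing sequence of `k+1` sites with a
popular pattern (`cons_tup`). The first `k+1` of the primes at the sites are consecutive primes.
-/

set_option autoImplicit false

namespace Pool.Agent.H21.GC

open Finset Filter Pool.Agent.H61.UN Pool.Agent.H61.UL Pool.Agent.H92.MM Pool.Agent.H61.GD

open Classical in
/-- number of the `j` with `p_j ≤ X` and `p_(j+i+1) = p_(j+i) + Q n_i` for all `i < k` -/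
noncomputable def cs {k : ℕ} (X Q : ℕ) (n : Fin k → ℕ) : ℕ :=
  ((range (X + 1)).filter (fun j => Nat.nth Nat.Prime j ≤ X ∧
    ∀ i : Fin k, Nat.nth Nat.Prime (j + i + 1) = Nat.nth Nat.Prime (j + i) + Q * n i)).card

open Classical in
/-- sites of `k+1` consecutive primes with differences `Q n`, `n ∈ D` -/
noncomputable def GS {k : ℕ} (Q M : ℕ) (D : Finset (Fin k → ℕ)) (N : ℕ) :
    Finset (Fin (k + 1) → ℕ) :=
  (Fintype.piFinset (fun _ : Fin (k + 1) => range (M + 1))).filter (fun r =>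
    (∀ i, (N + r i).Prime) ∧ (∃ n ∈ D, ∀ i : Fin k, r i.succ = r i.castSucc + Q * n i) ∧
      ∀ i : Fin k, r i.castSucc < r i.succ ∧
        ∀ t, N + r i.castSucc < t → t < N + r i.succ → ¬ t.Prime)

theorem mem_GS {k : ℕ} {Q M : ℕ} {D : Finset (Fin k → ℕ)} {N : ℕ} {r : Fin (k + 1) → ℕ} :
    r ∈ GS Q M D N ↔ (∀ i, r i ≤ M) ∧ (∀ i, (N + r i).Prime) ∧
      (∃ n ∈ D, ∀ i : Fin k, r i.succ = r i.castSucc + Q * n i) ∧
      ∀ i : Fin k, r i.castSucc < r i.succ ∧
        ∀ t, N + r i.castSucc < t → t < N + r i.succ → ¬ t.Prime := by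
  classical
  unfold GS
  rw [mem_filter, Fintype.mem_piFinset]
  simp only [mem_range, Nat.lt_succ_iff]

/-- the successor of a prime -/
private theorem nth_step (m a b : ℕ) (h : Nat.nth Nat.Prime m = a) (hb : b.Prime) (hab : a < b)
    (hn : ∀ t, a < t → t < b → ¬ t.Prime) : Nat.nth Nat.Prime (m + 1) = b := by
  have hmono : StrictMono (Nat.nth Nat.Prime) := Nat.nth_strictMono Nat.infinite_setOfPred_prime
  have h1 : a < Nat.nth Nat.Prime (m + 1) := by
    rw [← h]
    exact hmono (Nat.lt_succ_self m)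
  have h2 : b ≤ Nat.nth Nat.Prime (m + 1) := by
    by_contra h3
    exact hn _ h1 (not_le.1 h3) (Nat.prime_nth_prime _)
  have h3 : Nat.nth Nat.Prime (Nat.count Nat.Prime b) = b := Nat.nth_count hb
  have h4 : m < Nat.count Nat.Prime b := by
    rw [← hmono.lt_iff_lt, h, h3]
    exact hab
  have h5 : Nat.nth Nat.Prime (m + 1) ≤ Nat.nth Nat.Prime (Nat.count Nat.Prime b) :=
    hmono.monotone h4
  rw [h3] at h5
  exact le_antisymm h5 h2

private theorem nth_all {k : ℕ} (N : ℕ) (r : Fin (k + 1) → ℕ) (h1 : ∀ i, (N + r i).Prime)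
    (h2 : ∀ i : Fin k, r i.castSucc < r i.succ ∧
        ∀ t, N + r i.castSucc < t → t < N + r i.succ → ¬ t.Prime) (i : Fin (k + 1)) :
    Nat.nth Nat.Prime (Nat.count Nat.Prime (N + r 0) + i) = N + r i := by
  induction i using Fin.induction with
  | zero =>
    rw [Fin.val_zero, add_zero]
    exact Nat.nth_count (h1 0)
  | succ i ih =>
    rw [Fin.val_castSucc] at ih
    rw [Fin.val_succ, ← add_assoc]
    have h3 := h2 i
    exact nth_step _ _ _ ih (h1 _) (by omega) h3.2

theorem sum_GS {k : ℕ} (Q M : ℕ) (hQ : 0 < Q) (D : Finset (Fin k → ℕ)) (S : Finset ℕ) (Y : ℕ)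
    (hS : ∀ N ∈ S, 1 ≤ N ∧ N ≤ Y) :
    ∑ N ∈ S, (GS Q M D N).card ≤ (M + 1) * ∑ n ∈ D, cs (Y + M) Q n := by
  classical
  have h1 : ∑ N ∈ S, (GS Q M D N).card = (S.sigma (fun N => GS Q M D N)).card := by
    rw [card_sigma]
  have h2 : (range (M + 1) ×ˢ (D.sigma (fun n => (range (Y + M + 1)).filter
      (fun j => Nat.nth Nat.Prime j ≤ Y + M ∧
    ∀ i : Fin k, Nat.nth Nat.Prime (j + i + 1) = Nat.nth Nat.Prime (j + i) + Q * n i)))).card =
      (M + 1) * ∑ n ∈ D, cs (Y + M) Q n := by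
    rw [card_product, card_range, card_sigma]
    rfl
  rw [h1, ← h2]
  refine card_le_card_of_injOn (fun z => (z.2 0, ⟨fun i : Fin k =>
    (z.2 i.succ - z.2 i.castSucc) / Q, Nat.count Nat.Prime (z.1 + z.2 0)⟩)) ?_ ?_
  · rintro ⟨N, r⟩ hz
    rw [mem_coe, mem_sigma] at hz
    obtain ⟨hN, hr⟩ := hz
    rw [mem_GS] at hr
    simp only at hN hr
    obtain ⟨hr1, hr2, ⟨n, hn, hrn⟩, hr3⟩ := hr
    have h3 := hS N hN
    have h0 := hr1 0
    have e1 : (fun i : Fin k => (r i.succ - r i.castSucc) / Q) = n := by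
      funext i
      rw [hrn i, Nat.add_sub_cancel_left, Nat.mul_div_cancel_left _ hQ]
    have hall := nth_all N r hr2 hr3
    rw [mem_coe, mem_product, mem_sigma, mem_filter, mem_range, mem_range]
    simp only
    rw [e1]
    have h4 : Nat.count Nat.Prime (N + r 0) ≤ N + r 0 := Nat.count_le _
    refine ⟨by omega, hn, by omega, ?_, fun i => ?_⟩
    · rw [Nat.nth_count (hr2 0)]
      omega
    · have e2 := hall i.castSucc
      have e3 := hall i.succ
      rw [Fin.val_castSucc] at e2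
      rw [Fin.val_succ, ← add_assoc] at e3
      have e4 : (r i.succ - r i.castSucc) / Q = n i := congrFun e1 i
      rw [e2, e3, e4, hrn i, add_assoc]
  · rintro ⟨N, r⟩ hz ⟨N', r'⟩ hz' h
    rw [mem_coe, mem_sigma] at hz hz'
    have hr := (mem_GS.1 hz.2)
    have hr' := (mem_GS.1 hz'.2)
    simp only [Prod.mk.injEq, Sigma.mk.injEq, heq_eq_eq] at h hr hr'
    obtain ⟨-, hr2, ⟨n, hn, hrn⟩, hr3⟩ := hr
    obtain ⟨-, hr2', ⟨n', hn', hrn'⟩, hr3'⟩ := hr'
    obtain ⟨h4, h5, h6⟩ := h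
    have h7 : N + r 0 = N' + r' 0 := by
      rw [← Nat.nth_count (hr2 0), ← Nat.nth_count (hr2' 0), h6]
    have h8 : N = N' := by omega
    have h9 : r = r' := by
      funext i
      induction i using Fin.induction with
      | zero => exact h4
      | succ i ih =>
        have h10 := congrFun h5 i
        rw [hrn i, hrn' i, Nat.add_sub_cancel_left, Nat.add_sub_cancel_left,
          Nat.mul_div_cancel_left _ hQ, Nat.mul_div_cancel_left _ hQ] at h10
        rw [hrn i, hrn' i, h10, ih]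
    subst h8
    rw [h9]

/-- the first `k+1` sites with the property `P` -/
private theorem adj_k {ι : Type} [Fintype ι] [DecidableEq ι] (v : ι → ℕ)
    (hv : Function.Injective v) (S : Finset ι) (k : ℕ) (h : k + 1 ≤ S.card) :
    ∃ i : Fin (k + 1) → ι, Function.Injective i ∧ (∀ a, i a ∈ S) ∧
      (∀ a : Fin k, v (i a.castSucc) < v (i a.succ)) ∧
      ∀ a : Fin k, ∀ l ∈ S, v (i a.castSucc) < v l → v l < v (i a.succ) → False := by
  obtain ⟨Y, hY⟩ : ∃ Y, Y = S.image v := ⟨_, rfl⟩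
  have hYc : Y.card = S.card := by
    rw [hY]
    exact card_image_of_injective _ hv
  have hk : k + 1 ≤ Y.card := by omega
  obtain ⟨r, hr⟩ : ∃ r : Fin (k + 1) → ℕ, r = fun a => Y.orderEmbOfFin rfl (Fin.castLE hk a) :=
    ⟨_, rfl⟩
  have hrY : ∀ a, r a ∈ Y := by
    intro a
    rw [hr]
    exact orderEmbOfFin_mem Y rfl _
  have hrlt : ∀ a : Fin k, r a.castSucc < r a.succ := by
    intro a
    rw [hr]
    beta_reduce
    rw [OrderEmbedding.lt_iff_lt, Fin.lt_def, Fin.val_castLE, Fin.val_castLE, Fin.val_castSucc,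
      Fin.val_succ]
    omega
  have hgap : ∀ a : Fin k, ∀ y ∈ Y, r a.castSucc < y → y < r a.succ → False := by
    intro a y hy h1 h2
    have h3 : y ∈ Set.range (Y.orderEmbOfFin rfl) := by
      rw [range_orderEmbOfFin]
      exact hy
    obtain ⟨b, rfl⟩ := h3
    rw [hr] at h1 h2
    beta_reduce at h1 h2
    rw [OrderEmbedding.lt_iff_lt, Fin.lt_def, Fin.val_castLE, Fin.val_castSucc] at h1
    rw [OrderEmbedding.lt_iff_lt, Fin.lt_def, Fin.val_castLE, Fin.val_succ] at h2
    omega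
  have hex : ∀ a, ∃ i, i ∈ S ∧ v i = r a := by
    intro a
    have h1 := hrY a
    rw [hY, mem_image] at h1
    exact h1
  choose i hiS hi using hex
  refine ⟨i, ?_, hiS, fun a => ?_, fun a l hl h1 h2 => ?_⟩
  · intro a b hab
    have h1 : r a = r b := by rw [← hi, ← hi, hab]
    have h2 : StrictMono r := Fin.strictMono_iff_lt_succ.2 hrlt
    exact h2.injective h1
  · rw [hi, hi]
    exact hrlt a
  · rw [hi] at h1 h2
    exact hgap a (v l) (by rw [hY]; exact mem_image_of_mem _ hl) h1 h2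

open Classical in
theorem three (hU : BlkU) (k : ℕ) : ∃ (κ : ℝ) (K Q0 : ℕ), 0 < κ ∧ 1 ≤ Q0 ∧
    ∀ Q : ℕ, 0 < Q → Q0 ∣ Q → ∃ (c lam : ℝ) (L0 X0 : ℕ), 0 < c ∧ 0 < lam ∧ ∀ X : ℕ, X0 ≤ X →
      ∀ L : ℕ, L0 ≤ L → (L : ℝ) ≤ lam * Real.log X →
      κ * (L : ℝ) ^ k ≤ (((Fintype.piFinset fun _ : Fin k => Icc 1 L).filter (fun n =>
          c * (min 1 ((L : ℝ) / Real.log X)) ^ K * (X / Real.log X ^ (k + 1)) ≤
            (cs X Q n : ℝ))).card : ℝ) := by
  obtain ⟨B, hBd⟩ : ∃ B, B = 4 * (k + 1) := ⟨_, rfl⟩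
  obtain ⟨s, hs, hmain⟩ := main_B hU (1 / 1000) (by norm_num) (by norm_num) B k (by omega)
  have hn0 : 0 < B * s := Nat.mul_pos (by omega) hs
  have hn0r : (0 : ℝ) < ((B * s : ℕ) : ℝ) := by exact_mod_cast hn0
  obtain ⟨κ, hκ⟩ : ∃ κ : ℝ, κ = 1 / (2 * ((B * s : ℕ) : ℝ) ^ (k + 1)) := ⟨_, rfl⟩
  have hκ0 : 0 < κ := by rw [hκ]; positivity
  have hcard : Fintype.card (Fin B × Fin s) = B * s := by
    rw [Fintype.card_prod, Fintype.card_fin, Fintype.card_fin]
  have hκ1 : κ * (Fintype.card (Fin B × Fin s) : ℝ) ^ (k + 1) < 1 := by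
    rw [hcard, hκ]
    have h1 : 1 / (2 * ((B * s : ℕ) : ℝ) ^ (k + 1)) * ((B * s : ℕ) : ℝ) ^ (k + 1) = 1 / 2 := by
      field_simp
    rw [h1]
    norm_num
  obtain ⟨δ0, hδ0, T0, hbox⟩ := cons_tup (Fin B × Fin s) k κ hκ0.le hκ1
  rw [hcard] at hbox
  refine ⟨κ, B * s - (k + 1), primorial (B * s), hκ0, primorial_pos _, fun Q hQ hQ0 => ?_⟩
  have hQp : (0 : ℝ) < Q := by exact_mod_cast hQ
  have hQr : (1 : ℝ) ≤ Q := by exact_mod_cast hQ
  obtain ⟨δ, hδ⟩ : ∃ δ : ℝ, δ = δ0 / (Q : ℝ) ^ (B * s) := ⟨_, rfl⟩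
  have hδ' : 0 < δ := by
    rw [hδ]
    positivity
  obtain ⟨c1, T1, lam1, hc1, hT1, hlam1, hev⟩ := hmain (1 + 1) δ (by norm_num) hδ'
  have hx : Tendsto (fun X : ℕ => (X : ℝ) / (2 * T1)) atTop atTop :=
    (tendsto_natCast_atTop_atTop).atTop_div_const (by positivity)
  have hev1 := hx.eventually hev
  have hev2 := (tendsto_natCast_atTop_atTop (R := ℝ)).eventually (ev_two 1 T1 one_pos hT1 Q)
  have hev3 : ∀ᶠ X : ℕ in atTop, (0 : ℝ) < Real.log X :=
    (Real.tendsto_log_atTop.comp tendsto_natCast_atTop_atTop).eventually_gt_atTop 0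
  obtain ⟨X0, hX0⟩ := eventually_atTop.1 (hev1.and (hev2.and hev3))
  refine ⟨c1 / (8 * T1), min 1 (lam1 / (2 * Q)), T0 + 1, max X0 1, by positivity, by positivity,
    fun X hX L hL hLlam => ?_⟩
  obtain ⟨hE1, hE2, hE3⟩ := hX0 X ((le_max_left _ _).trans hX)
  have hXpos : (0 : ℝ) < X := by
    have : 1 ≤ X := (le_max_right _ _).trans hX
    exact_mod_cast this
  have hLA : (L : ℝ) ≤ Real.log X ^ (1 : ℝ) := by
    rw [Real.rpow_one]
    refine hLlam.trans ?_
    calc min 1 (lam1 / (2 * Q)) * Real.log X ≤ 1 * Real.log X :=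
          mul_le_mul_of_nonneg_right (min_le_left _ _) hE3.le
      _ = Real.log X := one_mul _
  have hLl : (L : ℝ) ≤ lam1 / (2 * Q) * Real.log X :=
    hLlam.trans (mul_le_mul_of_nonneg_right (min_le_right _ _) hE3.le)
  obtain ⟨hq1, hq2, hq3, hq4, hq5⟩ := hE2 L (Nat.cast_nonneg _) hLA
  obtain ⟨x, hxd⟩ : ∃ x : ℝ, x = (X : ℝ) / (2 * T1) := ⟨_, rfl⟩
  rw [← hxd] at hE1 hq1 hq2 hq3 hq4
  by_contra hcon
  push Not at hcon
  obtain ⟨thr, hthr⟩ : ∃ thr : ℝ, thr = c1 / (8 * T1) *
    (min 1 ((L : ℝ) / Real.log X)) ^ (B * s - (k + 1)) * (X / Real.log X ^ (k + 1)) := ⟨_, rfl⟩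
  rw [← hthr] at hcon
  have hL1 : 1 ≤ L := by omega
  have hB2 := hbox L (by omega) {n : Fin k → ℕ | thr ≤ (cs X Q n : ℝ)} hcon.le
  obtain ⟨VV, hVV⟩ : ∃ VV : Finset (Fin B × Fin s → Fin (L + 1)), VV =
      univ.filter (fun V : Fin B × Fin s → Fin (L + 1) =>
        Function.Injective V ∧ ∀ j : Fin (k + 1) → Fin B × Fin s,
          (∀ i : Fin k, (V (j i.castSucc) : ℕ) < V (j i.succ)) →
            (fun i : Fin k => (V (j i.succ) : ℕ) - V (j i.castSucc)) ∉
              {n : Fin k → ℕ | thr ≤ (cs X Q n : ℝ)}) := ⟨_, rfl⟩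
  have hB2 : δ0 * (L : ℝ) ^ (B * s) ≤ (VV.card : ℝ) := by
    rw [hVV]
    exact hB2.trans (card_imp fun V hV => hV)
  obtain ⟨BB, hBB⟩ : ∃ BB : Finset (Fin B × Fin s → ℕ),
      BB = VV.image (fun V q => Q * (V q : ℕ)) := ⟨_, rfl⟩
  have hBBcard : BB.card = VV.card := by
    rw [hBB]
    apply card_image_of_injective
    intro V V' h
    funext q
    have h1 := congrFun h q
    simp only at h1
    exact Fin.ext (Nat.eq_of_mul_eq_mul_left hQ h1)
  obtain ⟨D, hD⟩ : ∃ D : Finset (Fin k → ℕ), D = (Fintype.piFinset fun _ : Fin k => Icc 1 L).filter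
      (fun n => ¬ thr ≤ (cs X Q n : ℝ)) := ⟨_, rfl⟩
  have hDcard : D.card ≤ L ^ k := by
    rw [hD]
    refine (card_filter_le _ _).trans ?_
    rw [Fintype.card_piFinset]
    simp
  have hdata : ∀ v ∈ BB, ∃ V ∈ VV, ∀ q, v q = Q * (V q : ℕ) := by
    intro v hv
    rw [hBB, mem_image] at hv
    obtain ⟨V, hV, rfl⟩ := hv
    exact ⟨V, hV, fun q => rfl⟩
  have hVle : ∀ (V : Fin B × Fin s → Fin (L + 1)) q, (V q : ℕ) ≤ L := fun V q => by
    have := (V q).isLt
    omega
  have hle : ∀ v ∈ BB, ∀ q, v q ≤ Q * L := by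
    intro v hv q
    obtain ⟨V, -, h⟩ := hdata v hv
    rw [h]
    exact Nat.mul_le_mul_left _ (hVle _ _)
  have hinj : ∀ v ∈ BB, Function.Injective v := by
    intro v hv q q' hqq
    obtain ⟨V, hV, h⟩ := hdata v hv
    rw [hVV, mem_filter] at hV
    rw [h, h] at hqq
    exact hV.2.1 (Fin.ext (Nat.eq_of_mul_eq_mul_left hQ hqq))
  have key := hE1 (Q * L) (Nat.mul_pos hQ hL1) (by
      refine le_trans ?_ hq1
      push_cast
      exact le_rfl) True (fun _ => by
      have h1 : (L : ℝ) ≤ lam1 / (2 * Q) * (2 * Real.log x) :=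
        hLl.trans (mul_le_mul_of_nonneg_left hq2 (by positivity))
      have h2 : (Q : ℝ) * L ≤ Q * (lam1 / (2 * Q) * (2 * Real.log x)) :=
        mul_le_mul_of_nonneg_left h1 (by positivity)
      have h3 : (Q : ℝ) * (lam1 / (2 * Q) * (2 * Real.log x)) = lam1 * Real.log x := by
        field_simp
      push_cast
      rw [h3] at h2
      exact h2) BB (by
      intro v hv
      refine ⟨mem_IJ.2 ⟨hle v hv, hinj v hv⟩, ?_⟩
      intro p hp
      obtain ⟨V, hV, h⟩ := hdata v hv
      by_cases hpB : p ≤ B * s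
      · refine ⟨1, fun q hq => ?_⟩
        have h1 : p ∣ Q := (hp.dvd_primorial_iff.2 hpB).trans hQ0
        rw [h] at hq
        have h2 : p ∣ 1 := (Nat.dvd_add_left (h1.mul_right _)).1 hq
        exact hp.one_lt.ne' (Nat.dvd_one.1 h2)
      · push Not at hpB
        -- fewer than `p` residues
        obtain ⟨S, hS⟩ : ∃ S : Finset ℕ, S = univ.image (fun q : Fin B × Fin s => v q % p) :=
          ⟨_, rfl⟩
        have h1 : S.card < p := by
          rw [hS]
          refine lt_of_le_of_lt card_image_le ?_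
          rw [card_univ, Fintype.card_prod, Fintype.card_fin, Fintype.card_fin]
          exact hpB
        obtain ⟨r, hr, hr'⟩ : ∃ r ∈ range p, r ∉ S := by
          by_contra hcon'
          push Not at hcon'
          have := card_le_card (fun r hr => hcon' r hr : range p ⊆ S)
          rw [card_range] at this
          omega
        rw [mem_range] at hr
        refine ⟨p - r, fun q hq => hr' ?_⟩
        rw [hS, mem_image]
        refine ⟨q, mem_univ _, ?_⟩
        have h3 : (p - r + v q) + r ≡ 0 + r [MOD p] :=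
          Nat.ModEq.add_right r ((Nat.modEq_zero_iff_dvd).2 hq)
        have h4 : (p - r + v q) + r = v q + p := by omega
        rw [h4, zero_add] at h3
        have h5 : v q + p ≡ v q [MOD p] := Nat.add_mod_right _ _
        have h6 : v q % p = r % p := h5.symm.trans h3
        rw [h6, Nat.mod_eq_of_lt hr]) (by
      rw [hBBcard]
      refine le_trans (le_of_eq ?_) hB2
      rw [hδ]
      push_cast
      rw [mul_pow]
      field_simp) (GS Q (Q * L) D) (by
      intro N _ r hr i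
      rw [mem_GS] at hr
      exact ⟨hr.1 i, hr.2.1 i⟩) (by
      intro v hv N _ hpc hcn
      have hcn := hcn trivial
      obtain ⟨V, hV, h⟩ := hdata v hv
      rw [hVV, mem_filter] at hV
      obtain ⟨S, hS⟩ : ∃ S : Finset (Fin B × Fin s), S = univ.filter
        (fun q => (N + v q).Prime) := ⟨_, rfl⟩
      have hSc : k + 1 ≤ S.card := by
        have h1 : pc v N ≤ S.card := by
          have h2 : (univ.filter (fun j : Fin B => ∃ l : Fin s, (N + v (j, l)).Prime)) ⊆
              S.image Prod.fst := by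
            intro j hj
            rw [mem_filter] at hj
            obtain ⟨-, l, hl⟩ := hj
            rw [mem_image]
            exact ⟨(j, l), by rw [hS, mem_filter]; exact ⟨mem_univ _, hl⟩, rfl⟩
          exact (card_le_card h2).trans card_image_le
        have h2 : ((k + 1 : ℕ) : ℝ) ≤ (pc v N : ℝ) := by
          refine le_trans ?_ hpc
          rw [hBd]
          push_cast
          have : (0 : ℝ) ≤ k := Nat.cast_nonneg k
          nlinarith
        have h3 : k + 1 ≤ pc v N := by exact_mod_cast h2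
        omega
      obtain ⟨i, hi1, hi2, hi3, hi4⟩ := adj_k v (hinj v hv) S k hSc
      refine ⟨i, hi1, ?_⟩
      rw [mem_GS]
      have hVlt : ∀ a : Fin k, (V (i a.castSucc) : ℕ) < V (i a.succ) := by
        intro a
        have h1 := hi3 a
        rw [h, h] at h1
        exact lt_of_mul_lt_mul_left h1 (Nat.zero_le _)
      refine ⟨fun a => hle v hv _, fun a => ?_, ?_, fun a => ⟨hi3 a, fun t ht1 ht2 htp => ?_⟩⟩
      · have h1 := hi2 a
        rw [hS, mem_filter] at h1
        exact h1.2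
      · refine ⟨fun a => (V (i a.succ) : ℕ) - V (i a.castSucc), ?_, fun a => ?_⟩
        · rw [hD, mem_filter, Fintype.mem_piFinset]
          refine ⟨fun a => ?_, hV.2.2 i hVlt⟩
          rw [mem_Icc]
          have h1 := hVlt a
          have h2 := hVle V (i a.succ)
          omega
        · simp only [Function.comp, h]
          have h1 := hVlt a
          rw [← Nat.mul_add]
          congr 1
          omega
      · simp only [Function.comp] at ht1 ht2
        obtain ⟨l, hl⟩ := hcn (t - N) (by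
          have := hle v hv (i a.succ)
          omega) (by
          have e : N + (t - N) = t := by omega
          rw [e]
          exact htp)
        have e : N + v l = t := by omega
        refine hi4 a l ?_ (by omega) (by omega)
        rw [hS, mem_filter, e]
        exact ⟨mem_univ _, htp⟩)
  -- upper bound
  have hTx0 : ∀ N ∈ (Tx x).filter (fun N : ℕ => (N : ℝ) ≤ T1 * x), 1 ≤ N ∧ N ≤ X - Q * L := by
    intro N hN
    rw [mem_filter, Tx, mem_Ioc] at hN
    have h1 : T1 * x = X / 2 := by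
      rw [hxd]
      have : T1 ≠ 0 := by positivity
      field_simp
    have h2 : (N : ℝ) ≤ X / 2 := by rw [← h1]; exact hN.2
    have h4 : ((N + Q * L : ℕ) : ℝ) ≤ X := by
      push_cast
      linarith
    have h5 : N + Q * L ≤ X := by exact_mod_cast h4
    omega
  have hup := sum_GS Q (Q * L) hQ D _ (X - Q * L) hTx0
  have hX4 : X - Q * L + Q * L = X := by
    have h4 : ((Q * L : ℕ) : ℝ) ≤ X := by
      push_cast
      linarith
    have h5 : Q * L ≤ X := by exact_mod_cast h4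
    omega
  rw [hX4] at hup
  have hlX : 0 < Real.log X := hE3
  have hthr0 : 0 ≤ thr := by
    rw [hthr]
    have : 0 ≤ min 1 ((L : ℝ) / Real.log X) := le_min zero_le_one (by positivity)
    positivity
  have hup2 : ((∑ N ∈ (Tx x).filter (fun N : ℕ => (N : ℝ) ≤ T1 * x),
      (GS Q (Q * L) D N).card : ℕ) : ℝ) ≤ (Q * L + 1) * ((L : ℝ) ^ k * thr) := by
    have h1 : ((∑ N ∈ (Tx x).filter (fun N : ℕ => (N : ℝ) ≤ T1 * x),
        (GS Q (Q * L) D N).card : ℕ) : ℝ) ≤ ((Q * L + 1) * ∑ n ∈ D, cs X Q n : ℕ) := by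
      exact_mod_cast hup
    refine h1.trans ?_
    push_cast
    apply mul_le_mul_of_nonneg_left _ (by positivity)
    calc ∑ n ∈ D, (cs X Q n : ℝ) ≤ ∑ _n ∈ D, thr := by
          apply sum_le_sum
          intro h hh
          rw [hD, mem_filter] at hh
          have := hh.2
          push Not at this
          exact this.le
      _ = D.card * thr := by rw [sum_const, nsmul_eq_mul]
      _ ≤ (L : ℝ) ^ k * thr := mul_le_mul_of_nonneg_right (by exact_mod_cast hDcard) hthr0
  push_cast at hup2 key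
  have hkey2 := key.trans hup2
  have hLr : (1 : ℝ) ≤ L := by exact_mod_cast hL1
  have hQL : (L : ℝ) ≤ Q * L := by nlinarith
  obtain ⟨M, hM⟩ : ∃ M : ℝ, M = (min 1 ((L : ℝ) / Real.log X)) ^ (B * s - (k + 1)) := ⟨_, rfl⟩
  have hM0 : 0 < M := by
    rw [hM]
    have : 0 < min 1 ((L : ℝ) / Real.log X) := lt_min one_pos (by positivity)
    positivity
  have hmono : (L : ℝ) / Real.log X ≤ Q * L / Real.log x := by
    rw [div_le_div_iff₀ hlX hq3]
    exact mul_le_mul hQL hq4 hq3.le (by positivity)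
  have h1 : M ≤ (min 1 ((Q : ℝ) * L / Real.log x)) ^ (B * s - (k + 1)) := by
    rw [hM]
    apply pow_le_pow_left₀ (le_min zero_le_one (by positivity))
    exact min_le_min le_rfl hmono
  have hmono2 : ((Q : ℝ) * L) * (L ^ k / Real.log X ^ (k + 1)) ≤
      ((Q : ℝ) * L / Real.log x) ^ (k + 1) := by
    have h2 : ((Q : ℝ) * L / Real.log X) ^ (k + 1) ≤ ((Q : ℝ) * L / Real.log x) ^ (k + 1) := by
      apply pow_le_pow_left₀ (by positivity)
      exact div_le_div_of_nonneg_left (by positivity) hq3 hq4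
    refine le_trans ?_ h2
    rw [div_pow, pow_succ ((Q : ℝ) * L) k]
    have h3 : (L : ℝ) ^ k ≤ ((Q : ℝ) * L) ^ k := pow_le_pow_left₀ (by positivity) hQL k
    have h4 : ((Q : ℝ) * L) * (L ^ k / Real.log X ^ (k + 1)) =
        L ^ k * ((Q : ℝ) * L) / Real.log X ^ (k + 1) := by ring
    rw [h4]
    exact div_le_div_of_nonneg_right (mul_le_mul_of_nonneg_right h3 (by positivity))
      (by positivity)
  have hx0 : 0 ≤ x := by
    rw [hxd]
    positivity
  have h3 : c1 * x * (((Q : ℝ) * L) * (L ^ k / Real.log X ^ (k + 1))) * M ≤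
      c1 * x * ((Q : ℝ) * L / Real.log x) ^ (k + 1) *
        (min 1 ((Q : ℝ) * L / Real.log x)) ^ (B * s - (k + 1)) := by
    apply mul_le_mul _ h1 hM0.le (by positivity)
    exact mul_le_mul_of_nonneg_left hmono2 (by positivity)
  have h4 := h3.trans hkey2
  rw [hthr, ← hM, hxd] at h4
  have e2 : Real.log X ≠ 0 := hlX.ne'
  have e1 : T1 ≠ 0 := by positivity
  have h5 : c1 * ((X : ℝ) / (2 * T1)) * (((Q : ℝ) * L) * (L ^ k / Real.log X ^ (k + 1))) * M =
      (4 * ((Q : ℝ) * L)) *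
        ((L : ℝ) ^ k * (c1 / (8 * T1) * M * (X / Real.log X ^ (k + 1)))) := by
    field_simp
    ring
  have h7 : 0 < (L : ℝ) ^ k * (c1 / (8 * T1) * M * (X / Real.log X ^ (k + 1))) := by positivity
  rw [h5] at h4
  have h8 := le_of_mul_le_mul_right h4 h7
  linarith

end Pool.Agent.H21.GC
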